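import Pool.Agent.Helper80.TM.Defs

/-!
TM-01. Existence of cells.

`T₁ = T ∪ T⁻¹ ∪ {1}`, `P j = Sp T₁ j`, `F = P (2 J)`. `A r` (`r < t`) is a cover of the group by sets in which the
chains with steps in `F` are bounded. `d r x` is the least `j ≤ J` with `u⁻¹ * x ∈ P j` for some `u ∈ A r` (and
`J + 1` if there is none); `c r x` is a chosen point of the component of such a point `u`.
-/

set_option autoImplicit false

namespace Pool.Agent.Helper80.TM

open Pool.Agent.Helper65.TH
open Pool.Agent.Helper65.GN (Bdd Sep)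
open Pool.Agent.Helper80.PP

variable {G : Type*} [Group G]

theorem sp_mul_right {S : Finset G} {j : ℕ} {a b : G} (ha : a ∈ Sp S j) (hb : b ∈ S) :
    a * b ∈ Sp S (j + 1) := by
  classical
  induction j generalizing a with
  | zero =>
    rw [Sp, Finset.mem_singleton] at ha
    subst ha
    rw [one_mul]
    have h1 : (1 : G) ∈ Sp S 0 := by rw [Sp]; exact Finset.mem_singleton_self _
    have := sp_mul_left hb h1
    rwa [mul_one] at this
  | succ j ih =>
    rw [Sp] at ha
    obtain ⟨c, hc, d, hd, rfl⟩ := Finset.mem_image₂.1 ha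
    rw [mul_assoc]
    exact sp_mul_left hc (ih hd)

theorem sp_add {S : Finset G} {i j : ℕ} {a b : G} (ha : a ∈ Sp S i) (hb : b ∈ Sp S j) :
    a * b ∈ Sp S (i + j) := by
  classical
  induction i generalizing a with
  | zero =>
    rw [Sp, Finset.mem_singleton] at ha
    rw [ha, one_mul, Nat.zero_add]
    exact hb
  | succ i ih =>
    rw [Sp] at ha
    obtain ⟨c, hc, d, hd, rfl⟩ := Finset.mem_image₂.1 ha
    rw [mul_assoc, Nat.succ_add]
    exact sp_mul_left hc (ih hd)

theorem sp_inv {S : Finset G} (hS : ∀ s ∈ S, s⁻¹ ∈ S) {j : ℕ} {a : G} (ha : a ∈ Sp S j) :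
    a⁻¹ ∈ Sp S j := by
  classical
  induction j generalizing a with
  | zero =>
    rw [Sp, Finset.mem_singleton] at ha ⊢
    rw [ha, inv_one]
  | succ j ih =>
    rw [Sp] at ha
    obtain ⟨c, hc, d, hd, rfl⟩ := Finset.mem_image₂.1 ha
    rw [mul_inv_rev]
    exact sp_mul_right (ih hd) (hS c hc)

theorem exists_cells (L : Subgroup G) {t : ℕ} (h : AsdimLT L t) (T : Finset G)
    (hT : ∀ s ∈ T, s ∈ L) (J : ℕ) : Nonempty (Cells L T J t) := by
  classical
  set T1 : Finset G := insert 1 (T ∪ T.image (fun s => s⁻¹)) with hT1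
  have h1T : (1 : G) ∈ T1 := Finset.mem_insert_self _ _
  have hTT1 : ∀ s ∈ T, s ∈ T1 := fun s hs => Finset.mem_insert_of_mem (Finset.mem_union_left _ hs)
  have hT1i : ∀ s ∈ T1, s⁻¹ ∈ T1 := by
    intro s hs
    rcases Finset.mem_insert.1 hs with rfl | hs
    · rw [inv_one]; exact h1T
    · rcases Finset.mem_union.1 hs with hs | hs
      · exact Finset.mem_insert_of_mem (Finset.mem_union_right _ (Finset.mem_image_of_mem _ hs))
      · obtain ⟨u, hu, rfl⟩ := Finset.mem_image.1 hs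
        rw [inv_inv]
        exact hTT1 u hu
  have hT1L : ∀ s ∈ T1, s ∈ L := by
    intro s hs
    rcases Finset.mem_insert.1 hs with rfl | hs
    · exact L.one_mem
    · rcases Finset.mem_union.1 hs with hs | hs
      · exact hT s hs
      · obtain ⟨u, hu, rfl⟩ := Finset.mem_image.1 hs
        exact L.inv_mem (hT u hu)
  set F : Finset G := Sp T1 (2 * J) with hF
  have hFL : ∀ s ∈ F, s ∈ L := fun s hs => sp_sub hT1L hs
  have hFi : ∀ s ∈ (F : Set G), s⁻¹ ∈ (F : Set G) := fun s hs => sp_inv hT1i hs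
  obtain ⟨EA, A, hcov, hbd⟩ := AsdimLT.lift L h F hFL
  -- near points
  set Nr : Fin t → ℕ → G → G → Prop := fun r j x u => u ∈ A r ∧ u⁻¹ * x ∈ Sp T1 j with hNr
  have hNr_mono : ∀ {r i j x u}, i ≤ j → Nr r i x u → Nr r j x u := fun hij hu =>
    ⟨hu.1, sp_mono h1T hij hu.2⟩
  -- two near points are connected
  have hconn : ∀ {r x u u'}, Nr r J x u → Nr r J x u' →
      Chain (F : Set G) (fun b => b ∈ A r) u u' := by
    intro r x u u' hu hu'
    refine (Chain.refl _ _ _).step ?_ hu'.1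
    have e1 : u⁻¹ * u' = (u⁻¹ * x) * (u'⁻¹ * x)⁻¹ := by group
    rw [e1]
    have := sp_add hu.2 (sp_inv hT1i hu'.2)
    rw [hF, Finset.mem_coe, two_mul]
    exact this
  -- the components
  set K : Fin t → G → Set G := fun r x =>
    {v | ∃ u, Nr r J x u ∧ Chain (F : Set G) (fun b => b ∈ A r) u v} with hK
  have hKeq : ∀ {r x y u}, Nr r J x u → Nr r J y u → K r x = K r y := by
    have : ∀ {r x y u}, Nr r J x u → Nr r J y u → K r x ⊆ K r y := by
      rintro r x y u hx hy v ⟨u', hu', hv⟩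
      exact ⟨u, hy, (hconn hx hu').trans hv⟩
    intro r x y u hx hy
    exact Set.Subset.antisymm (this hx hy) (this hy hx)
  set cc : Set G → G := fun s => if hs : s.Nonempty then hs.some else 1 with hcc
  have hex : ∀ r x, ∃ j, j = J + 1 ∨ ∃ u, Nr r j x u := fun r x => ⟨J + 1, Or.inl rfl⟩
  set d : Fin t → G → ℕ := fun r x => Nat.find (hex r x) with hd
  have hd1 : ∀ {r x}, d r x ≤ J → ∃ u, Nr r (d r x) x u := by
    intro r x hx
    rcases Nat.find_spec (hex r x) with h1 | h1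
    · change d r x = J + 1 at h1
      omega
    · exact h1
  have hd2 : ∀ {r j x u}, Nr r j x u → d r x ≤ j := fun hu => Nat.find_min' (hex _ _) (Or.inr ⟨_, hu⟩)
  refine ⟨{
    d := d
    c := fun r x => cc (K r x)
    E := (Finset.image₂ (fun a b => a⁻¹ * b) EA (Sp T1 J)).filter (fun e => e ∈ L)
    hE := fun e he => (Finset.mem_filter.1 he).2
    cov := ?_
    step := ?_
    near := ?_ }⟩
  · intro x
    obtain ⟨r, hr⟩ := hcov x
    refine ⟨r, Nat.le_zero.1 (hd2 (r := r) (j := 0) (x := x) (u := x) ⟨hr, ?_⟩)⟩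
    rw [inv_mul_cancel, Sp]
    exact Finset.mem_singleton_self _
  · intro r x s hs hlt
    obtain ⟨u, hu⟩ := hd1 hlt.le
    have hxs : Nr r (d r x + 1) (x * s) u := by
      refine ⟨hu.1, ?_⟩
      rw [← mul_assoc]
      exact sp_mul_right hu.2 (hTT1 s hs)
    refine ⟨hd2 hxs, ?_⟩
    have := hKeq (hNr_mono hlt.le hu) (hNr_mono (Nat.succ_le_of_lt hlt) hxs)
    show cc (K r (x * s)) = cc (K r x)
    rw [this]
  · intro r x hx
    obtain ⟨u, hu⟩ := hd1 hx
    have hu' := hNr_mono hx hu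
    have hne : (K r x).Nonempty := ⟨u, u, hu', Chain.refl _ _ _⟩
    have hc : cc (K r x) ∈ K r x := by
      rw [hcc]
      simp only [hne, dite_true]
      exact hne.some_mem
    obtain ⟨v, hv, hch⟩ := hc
    have huv := (hconn hu' hv).trans hch
    have h1 : u⁻¹ * cc (K r x) ∈ EA := hbd r u hu'.1 _ huv
    have h2 : u⁻¹ * cc (K r x) ∈ L := huv.mem_subgroup L (fun s hs => hFL s hs)
    have h3 : u⁻¹ * x ∈ L := sp_sub hT1L hu'.2
    have e1 : (cc (K r x))⁻¹ * x = (u⁻¹ * cc (K r x))⁻¹ * (u⁻¹ * x) := by group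
    refine Finset.mem_filter.2 ⟨?_, ?_⟩
    · rw [e1]
      exact Finset.mem_image₂.2 ⟨_, h1, _, hu'.2, rfl⟩
    · rw [e1]
      exact L.mul_mem (L.inv_mem h2) h3

end Pool.Agent.Helper80.TM
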