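import Pool.Agent.Helper65.FP.Vir
import Pool.Agent.Helper80.HY.HDefs
import Pool.Agent.Helper74.RT.Defs

/-!
# TM-11: definitions: the relation `CutZ n K L`, strong asymptotic property C
-/

set_option autoImplicit false

namespace Pool.Agent.Helper80.TM

open Pool.Agent.Helper65.TH Pool.Agent.Helper65.GN Pool.Agent.Helper65.FP Pool.Agent.Helper80.HY
open Pool.Agent.Helper74.RT (Peri)
open Pool.Agent.Helper75.Apc (HasFamilies)
open scoped Pointwise

/-- Strong asymptotic property C: for every sequence `0 < R 0 ≤ R 1 ≤ ...` there are families as in the definition of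
asymptotic property C, and their number depends only on `R 0`. -/
def StrongAPC (X : Type*) [MetricSpace X] : Prop :=
  ∃ n : ℝ → ℕ, ∀ R : ℕ → ℝ, (∀ i, 0 < R i) → Monotone R → HasFamilies X R (n (R 0))

/-- every finite subset of `K` lies in a subgroup of `G` of finite asymptotic dimension -/
def LocFin {G : Type*} [Group G] (K : Subgroup G) : Prop :=
  ∀ S : Finset G, (∀ s ∈ S, s ∈ K) → ∃ (H : Subgroup G) (t : ℕ), (∀ s ∈ S, s ∈ H) ∧ AsdimLT H t

/-- `CutZ n K L` (`L` is cut by `n` families in `K`) is the smallest relation with the following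
properties.
`hyp`: if `L` embeds coarsely into the hyperbolic space of dimension `d + 1`, then `L` is cut by
`2 ^ (d + 2) + 1` families in the whole group.
`asdim`: if `K` has asymptotic dimension less than `t` then `CutZ t K K`.
`growth`: if `T` is finite, symmetric, contains `1` and `T ^ k` has at most `C * (k + 1) ^ d` elements for
all `k`, then the subgroup generated by `T` is cut by `d` families in the whole group.
`prod`: if every finite subset of `K` lies in a subgroup of finite asymptotic dimension, then every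
subgroup `L` of `K` isomorphic to the product of a free group of finite rank and `ℤ` is cut by `7` families in
`K`.
`mono`: the number `n` can be enlarged, both subgroups can be made smaller.
`index`: `L` can be replaced by a subgroup `L'` of `K` containing `L` with finite index.
`free`: if subgroups `A i` of `K` (`i < r`) generate their free product and `CutZ (n i) K (A i)`, then
the group generated by them is cut by `∑ i, n i + 1` families in `K`.
`comm`, `rooted`: `K` (containing `L`) can be replaced by a larger subgroup `K'` by which it is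
commensurated, or in which it is rooted.
`tame`: `K` (containing `L`) can be replaced by a larger subgroup `K'` every finite subset of which lies in a
subgroup of finite asymptotic dimension, if `L ∩ g L g⁻¹` is finite for all `g ∈ K'` outside `K`.
`rel`: the same if for every finite subset `B` of `K'` there is a peripheral family of subgroups of `L` (see `Peri`)
for `B`, with maps to `{0, ..., m}`; the number of families is multiplied by `m + 1`.
`union`: if `L` is cut by `n` families in all members of a directed set of subgroups, then also in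
their union. -/
inductive CutZ {G : Type*} [Group G] : ℕ → Subgroup G → Subgroup G → Prop
  | hyp (L : Subgroup G) (d : ℕ) (h : HypEmb L d) : CutZ (2 ^ (d + 2) + 1) ⊤ L
  | asdim (K : Subgroup G) (t : ℕ) (h : AsdimLT K t) : CutZ t K K
  | growth (T : Finset G) (C d : ℕ) (h1 : (1 : G) ∈ T) (hinv : ∀ t ∈ T, t⁻¹ ∈ T)
      (h : ∀ k : ℕ, ((T : Set G) ^ k).ncard ≤ C * (k + 1) ^ d) :
      CutZ d ⊤ (Subgroup.closure (T : Set G))
  | prod (K L : Subgroup G) (r : ℕ) (ψ : L ≃* FreeGroup (Fin r) × Multiplicative ℤ) (hL : L ≤ K)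
      (hK : LocFin K) : CutZ 7 K L
  | mono (n n' : ℕ) (K K' L L' : Subgroup G) (h : CutZ n K L) (hn : n ≤ n') (hK : K' ≤ K)
      (hL : L' ≤ L) : CutZ n' K' L'
  | index (n : ℕ) (K L L' : Subgroup G) (h : CutZ n K L) (hK : L' ≤ K) (hL : L ≤ L')
      (hi : L.relIndex L' ≠ 0) : CutZ n K L'
  | free (K : Subgroup G) (r : ℕ) (A : Fin r → Subgroup G) (n : Fin r → ℕ) (hA : ∀ i, A i ≤ K)
      (hinj : Function.Injective (Monoid.CoprodI.lift fun i => (A i).subtype))
      (h : ∀ i, CutZ (n i) K (A i)) : CutZ (∑ i, n i + 1) K (⨆ i, A i)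
  | comm (n : ℕ) (K K' L : Subgroup G) (h : CutZ n K L) (hL : L ≤ K) (hK : K ≤ K')
      (hc : Commensurated K K') : CutZ n K' L
  | rooted (n : ℕ) (K K' L : Subgroup G) (h : CutZ n K L) (hL : L ≤ K) (hK : K ≤ K')
      (hr : Rooted K K') : CutZ n K' L
  | tame (n : ℕ) (K K' L : Subgroup G) (h : CutZ n K L) (hL : L ≤ K) (hK : K ≤ K')
      (hK' : LocFin K') (hf : ∀ g ∈ K', g ∉ K → {l | l ∈ L ∧ g⁻¹ * l * g ∈ L}.Finite) : CutZ n K' L
  | rel (n m : ℕ) (K K' L : Subgroup G) (h : CutZ n K L) (hL : L ≤ K) (hK : K ≤ K')
      (hK' : LocFin K') (hP : ∀ B : Finset G, (∀ b ∈ B, b ∈ K') →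
        ∃ (s : ℕ) (P : Fin s → Subgroup G), Peri K' K L B m P) : CutZ (n * (m + 1)) K' L
  | union (n : ℕ) (L : Subgroup G) (S : Set (Subgroup G)) (hne : S.Nonempty)
      (hdir : DirectedOn (· ≤ ·) S) (h : ∀ K ∈ S, CutZ n K L) : CutZ n (sSup S) L

/-- `L ∩ g L g⁻¹` is finite or of finite index in `L`, for all `g` -/
def FinOrComm {G : Type*} [Group G] (L : Subgroup G) : Prop :=
  ∀ g : G, {l | l ∈ L ∧ g⁻¹ * l * g ∈ L}.Finite ∨
    (L.map (MulAut.conj g).toMonoidHom).relIndex L ≠ 0

/-- `L` has a subgroup of finite index isomorphic to the product of a free group of finite rank and `ℤ` -/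
def VirtProd {G : Type*} [Group G] (L : Subgroup G) : Prop :=
  ∃ (r : ℕ) (L' : Subgroup G), L' ≤ L ∧ L'.relIndex L ≠ 0 ∧
    Nonempty (L' ≃* FreeGroup (Fin r) × Multiplicative ℤ)

/-- `K` is almost malnormal in `K'`: `K ∩ g K g⁻¹` is finite for all `g ∈ K'` outside `K` -/
def AlmostMalnormal {G : Type*} [Group G] (K K' : Subgroup G) : Prop :=
  ∀ g ∈ K', g ∉ K → {k | k ∈ K ∧ g⁻¹ * k * g ∈ K}.Finite

end Pool.Agent.Helper80.TM
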