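import Pool.Agent.Helper80.TM.Defs

/-!
TM-05. A long injective path in a leaf whose points have near points of one colour has near points in many
different leaves.

Among `Ea.card + 1` consecutive points of the path there is one whose near point is obtained by an element outside
`C`, as the chains near the colour class along `C` are bounded by `Ea`. A leaf serves at most `Φ.card` of these
points.
-/

set_option autoImplicit false

namespace Pool.Agent.Helper80.TM

open Pool.Agent.Helper65.TH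
open Pool.Agent.Helper65.GN (Bdd Sep)
open Pool.Agent.Helper80.PP

theorem exists_leaves {G : Type*} [Group G] (C L : Subgroup G) (T B : Finset G)
    (a : G → ℕ) (i : ℕ) (Ea Φ : Finset G) (hT : ∀ s ∈ T, s ∈ L)
    (ha : Bdd (T : Set G) {x | ∃ b ∈ B, b ∈ C ∧ a (x * b) = i} Ea)
    (hΦ : ∀ b ∈ B, b ∉ C → ∀ b' ∈ B, ∀ l ∈ L, b⁻¹ * l * b' ∈ L → l ∈ Φ) (hΦ1 : Φ.Nonempty)
    (r : ℕ) (p β : ℕ → G)
    (hp : ∀ j, j + 1 < r * (Φ.card * (Ea.card + 1)) → (p j)⁻¹ * p (j + 1) ∈ T)
    (hinj : ∀ i < r * (Φ.card * (Ea.card + 1)), ∀ j < r * (Φ.card * (Ea.card + 1)), p i = p j → i = j)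
    (hβ : ∀ j < r * (Φ.card * (Ea.card + 1)), β j ∈ B)
    (hai : ∀ j < r * (Φ.card * (Ea.card + 1)), a (p j * β j) = i) :
    ∃ I : Finset ℕ, I.card = r ∧ (∀ j ∈ I, j < r * (Φ.card * (Ea.card + 1))) ∧
      ∀ j ∈ I, ∀ j' ∈ I, j ≠ j' → (p j * β j)⁻¹ * (p j' * β j') ∉ L := by
  classical
  obtain ⟨m, hm⟩ : ∃ m, m = r * (Φ.card * (Ea.card + 1)) := ⟨_, rfl⟩
  obtain ⟨e, he⟩ : ∃ e, e = Ea.card + 1 := ⟨_, rfl⟩
  rw [← hm] at hp hinj hβ hai ⊢
  have hm' : m = (r * Φ.card) * e := by rw [hm, he]; ring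
  -- the path stays in the leaf
  have hL0 : ∀ j, j < m → (p 0)⁻¹ * p j ∈ L := by
    intro j
    induction j with
    | zero =>
      intro _
      rw [inv_mul_cancel]
      exact L.one_mem
    | succ j ih =>
      intro hj
      have e1 : (p 0)⁻¹ * p (j + 1) = ((p 0)⁻¹ * p j) * ((p j)⁻¹ * p (j + 1)) := by group
      rw [e1]
      exact L.mul_mem (ih (by omega)) (hT _ (hp j hj))
  have hLL : ∀ j < m, ∀ j' < m, (p j)⁻¹ * p j' ∈ L := by
    intro j hj j' hj'
    have e1 : (p j)⁻¹ * p j' = ((p 0)⁻¹ * p j)⁻¹ * ((p 0)⁻¹ * p j') := by group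
    rw [e1]
    exact L.mul_mem (L.inv_mem (hL0 j hj)) (hL0 j' hj')
  -- every block contains a point whose near point is obtained by an element outside `C`
  have hblock : ∀ l < r * Φ.card, ∃ j, l * e ≤ j ∧ j < (l + 1) * e ∧ β j ∉ C := by
    intro l hl
    by_contra hcon
    push Not at hcon
    have hle : (l + 1) * e ≤ m := by
      rw [hm']
      exact Nat.mul_le_mul_right e hl
    have hee : (l + 1) * e = l * e + e := by ring
    have hmem : ∀ k < e, p (l * e + k) ∈ {x | ∃ b ∈ B, b ∈ C ∧ a (x * b) = i} := by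
      intro k hk
      exact ⟨β (l * e + k), hβ _ (by omega), hcon _ (by omega) (by omega), hai _ (by omega)⟩
    have hchain : ∀ k < e, Chain (T : Set G)
        (fun b => b ∈ {x | ∃ b ∈ B, b ∈ C ∧ a (x * b) = i}) (p (l * e)) (p (l * e + k)) := by
      intro k
      induction k with
      | zero =>
        intro _
        exact Chain.refl _ _ _
      | succ k ih =>
        intro hk
        exact (ih (by omega)).step (hp (l * e + k) (by omega)) (hmem (k + 1) hk)
    have hmap : Set.MapsTo (fun k => (p (l * e))⁻¹ * p (l * e + k)) (Finset.range e : Finset ℕ)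
        (Ea : Set G) := by
      intro k hk
      have hk' : k < e := Finset.mem_range.1 hk
      have h0 : 0 < e := by omega
      exact ha _ (hmem 0 h0) _ (hchain k hk')
    have hij : Set.InjOn (fun k => (p (l * e))⁻¹ * p (l * e + k)) (Finset.range e : Finset ℕ) := by
      intro k hk k' hk' hkk
      have h1 : k < e := Finset.mem_range.1 hk
      have h2 : k' < e := Finset.mem_range.1 hk'
      have h3 : p (l * e + k) = p (l * e + k') := mul_left_cancel hkk
      have := hinj _ (by omega) _ (by omega) h3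
      omega
    have hcard := Finset.card_le_card_of_injOn _ hmap hij
    rw [Finset.card_range] at hcard
    omega
  choose! g hg1 hg2 hg3 using hblock
  have hgm : ∀ l < r * Φ.card, g l < m := by
    intro l hl
    refine lt_of_lt_of_le (hg2 l hl) ?_
    rw [hm']
    exact Nat.mul_le_mul_right e hl
  have hginj : Set.InjOn g (Finset.range (r * Φ.card) : Finset ℕ) := by
    intro l hl l' hl' hll
    have h1 : l < r * Φ.card := Finset.mem_range.1 hl
    have h2 : l' < r * Φ.card := Finset.mem_range.1 hl'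
    by_contra hne
    rcases Nat.lt_or_gt_of_ne hne with h3 | h3
    · have h4 : (l + 1) * e ≤ l' * e := Nat.mul_le_mul_right e h3
      have h5 := hg2 l h1
      have h6 := hg1 l' h2
      omega
    · have h4 : (l' + 1) * e ≤ l * e := Nat.mul_le_mul_right e h3
      have h5 := hg2 l' h2
      have h6 := hg1 l h1
      omega
  obtain ⟨S0, hS0⟩ : ∃ S0 : Finset ℕ, S0 = (Finset.range (r * Φ.card)).image g := ⟨_, rfl⟩
  have hS0c : S0.card = r * Φ.card := by
    rw [hS0, Finset.card_image_of_injOn hginj, Finset.card_range]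
  have hS0m : ∀ j ∈ S0, j < m ∧ β j ∉ C := by
    intro j hj
    rw [hS0] at hj
    obtain ⟨l, hl, rfl⟩ := Finset.mem_image.1 hj
    have hl' := Finset.mem_range.1 hl
    exact ⟨hgm l hl', hg3 l hl'⟩
  -- the leaves
  obtain ⟨f, hf⟩ : ∃ f : ℕ → G ⧸ L, ∀ j, f j = ((p j * β j : G) : G ⧸ L) := ⟨_, fun _ => rfl⟩
  have hfib : ∀ c ∈ S0.image f, (S0.filter (fun j => f j = c)).card ≤ Φ.card := by
    intro c hc
    obtain ⟨j, hj, rfl⟩ := Finset.mem_image.1 hc
    obtain ⟨hjm, hjC⟩ := hS0m j hj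
    apply Finset.card_le_card_of_injOn (fun j' => (p j)⁻¹ * p j')
    · intro j' hj'
      obtain ⟨hj'S, hj'f⟩ := Finset.mem_filter.1 (Finset.mem_coe.1 hj')
      obtain ⟨hj'm, -⟩ := hS0m j' hj'S
      rw [hf, hf] at hj'f
      have h1 := QuotientGroup.eq.1 hj'f.symm
      refine hΦ (β j) (hβ j hjm) hjC (β j') (hβ j' hj'm) _ (hLL j hjm j' hj'm) ?_
      have e1 : (β j)⁻¹ * ((p j)⁻¹ * p j') * β j' = (p j * β j)⁻¹ * (p j' * β j') := by group
      rw [e1]
      exact h1
    · intro j' hj' j'' hj'' hjj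
      obtain ⟨hj'S, -⟩ := Finset.mem_filter.1 (Finset.mem_coe.1 hj')
      obtain ⟨hj''S, -⟩ := Finset.mem_filter.1 (Finset.mem_coe.1 hj'')
      exact hinj j' (hS0m j' hj'S).1 j'' (hS0m j'' hj''S).1 (mul_left_cancel hjj)
  have hcard := Finset.card_le_mul_card_image S0 Φ.card hfib
  rw [hS0c] at hcard
  have hr : r ≤ (S0.image f).card := by
    have hpos : 0 < Φ.card := Finset.card_pos.2 hΦ1
    exact Nat.le_of_mul_le_mul_right (by rw [Nat.mul_comm (S0.image f).card]; exact hcard) hpos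
  obtain ⟨T', hT'sub, hT'card⟩ := Finset.exists_subset_card_eq hr
  have hpre : ∀ c ∈ T', ∃ j ∈ S0, f j = c := by
    intro c hc
    obtain ⟨j, hj, hjc⟩ := Finset.mem_image.1 (hT'sub hc)
    exact ⟨j, hj, hjc⟩
  choose! k hk1 hk2 using hpre
  refine ⟨T'.image k, ?_, ?_, ?_⟩
  · rw [Finset.card_image_of_injOn, hT'card]
    intro c hc c' hc' hcc
    rw [← hk2 c hc, ← hk2 c' hc', hcc]
  · intro j hj
    obtain ⟨c, hc, rfl⟩ := Finset.mem_image.1 hj
    exact (hS0m _ (hk1 c hc)).1
  · intro j hj j' hj' hne hL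
    obtain ⟨c, hc, rfl⟩ := Finset.mem_image.1 hj
    obtain ⟨c', hc', rfl⟩ := Finset.mem_image.1 hj'
    apply hne
    have h1 : f (k c) = f (k c') := by
      rw [hf, hf]
      exact QuotientGroup.eq.2 hL
    rw [hk2 c hc, hk2 c' hc'] at h1
    rw [h1]

end Pool.Agent.Helper80.TM
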