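import Pool.Agent.Helper80.TM.Defs

/-!
TM-07. The number of configurations through one variable.
-/

set_option autoImplicit false

namespace Pool.Agent.Helper80.TM

/-- partial products -/
def pp {G : Type*} [Group G] (τ : ℕ → G) : ℕ → G
  | 0 => 1
  | (j + 1) => pp τ j * τ j

/-- extension of a function on `Fin m` -/
def xt {α : Type*} {m : ℕ} (f : Fin m → α) (a : α) (j : ℕ) : α := if h : j < m then f ⟨j, h⟩ else a

theorem xt_restrict {α : Type*} {m : ℕ} (f : ℕ → α) (a : α) {j : ℕ} (hj : j < m) :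
    xt (fun i : Fin m => f i) a j = f j := by
  rw [xt, dif_pos hj]

theorem pp_tel {G : Type*} [Group G] (p τ : ℕ → G) (m : ℕ)
    (h : ∀ j, j + 1 < m → τ j = (p j)⁻¹ * p (j + 1)) : ∀ j < m, pp τ j = (p 0)⁻¹ * p j := by
  intro j
  induction j with
  | zero => intro _; rw [pp, inv_mul_cancel]
  | succ j ih =>
    intro hj
    rw [pp, ih (by omega), h j hj]
    group

theorem exists_inc {G : Type*} [Group G] {L : Subgroup G} {T : Finset G} {J t : ℕ} [DecidableEq G]
    (C : Cells L T J t) (B : Finset G) (m r : ℕ) (v : Fin t × G × ℕ) :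
    ∃ 𝒬 : Finset (Finset (Fin t × G × ℕ)),
      𝒬.card ≤ C.E.card * m * (2 * (T.card + 1) * (B.card + 1) * (t + 1)) ^ m ∧
      ∀ (p β : ℕ → G) (q : ℕ → Fin t) (I : Finset ℕ), I.card = r → (∀ j ∈ I, j < m) →
        (∀ j, j + 1 < m → (p j)⁻¹ * p (j + 1) ∈ T) → (∀ j < m, β j ∈ B) →
        (∀ j ∈ I, C.d (q j) (p j * β j) ≤ J) →
        v ∈ I.image (fun j => C.var (q j) (p j * β j)) →
        I.image (fun j => C.var (q j) (p j * β j)) ∈ 𝒬 := by
  set 𝒞 : Finset (Fin m × G × (Fin m → G) × (Fin m → G) × (Fin m → Fin t) × Finset ℕ) :=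
    Finset.univ ×ˢ C.E ×ˢ Fintype.piFinset (fun _ => insert 1 T) ×ˢ
      Fintype.piFinset (fun _ => insert 1 B) ×ˢ Finset.univ ×ˢ (Finset.range m).powerset with h𝒞
  set dec : (Fin m × G × (Fin m → G) × (Fin m → G) × (Fin m → Fin t) × Finset ℕ) →
      Finset (Fin t × G × ℕ) := fun x =>
    x.2.2.2.2.2.image (fun j => C.var (xt x.2.2.2.2.1 v.1 j)
      ((v.2.1 * x.2.1 * (xt x.2.2.2.1 1 x.1)⁻¹ * (pp (xt x.2.2.1 1) x.1)⁻¹ *
        pp (xt x.2.2.1 1) j) * xt x.2.2.2.1 1 j)) with hdec
  refine ⟨𝒞.image dec, ?_, ?_⟩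
  · refine Finset.card_image_le.trans ?_
    rw [h𝒞]
    simp only [Finset.card_product, Fintype.card_piFinset, Finset.prod_const, Finset.card_univ,
      Fintype.card_fin, Finset.card_powerset, Finset.card_range, Fintype.card_pi]
    have h1 : (insert (1 : G) T).card ≤ T.card + 1 := Finset.card_insert_le _ _
    have h2 : (insert (1 : G) B).card ≤ B.card + 1 := Finset.card_insert_le _ _
    calc m * (C.E.card * ((insert (1 : G) T).card ^ m * ((insert (1 : G) B).card ^ m *
          (t ^ m * 2 ^ m))))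
        ≤ m * (C.E.card * ((T.card + 1) ^ m * ((B.card + 1) ^ m * ((t + 1) ^ m * 2 ^ m)))) := by
          gcongr
          exact Nat.le_succ t
      _ = C.E.card * m * (2 * (T.card + 1) * (B.card + 1) * (t + 1)) ^ m := by
          rw [mul_pow, mul_pow, mul_pow]
          ring
  · intro p β q I _ hI hp hβ hd hv
    obtain ⟨k, hk, hkv⟩ := Finset.mem_image.1 hv
    have hkm := hI k hk
    have hu : v.2.1 = C.c (q k) (p k * β k) := by rw [← hkv]; rfl
    have hE : v.2.1⁻¹ * (p k * β k) ∈ C.E := by rw [hu]; exact C.near _ _ (hd k hk)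
    set τ : ℕ → G := fun j => if j + 1 < m then (p j)⁻¹ * p (j + 1) else 1 with hτ
    refine Finset.mem_image.2 ⟨(⟨k, hkm⟩, v.2.1⁻¹ * (p k * β k), (fun i => τ i), (fun i => β i),
      (fun i => q i), I), ?_, ?_⟩
    · rw [h𝒞]
      simp only [Finset.mem_product, Finset.mem_univ, true_and, Fintype.mem_piFinset,
        Finset.mem_powerset]
      refine ⟨hE, ?_, ?_, ?_⟩
      · intro i
        rw [hτ]
        dsimp only
        split_ifs with h
        · exact Finset.mem_insert_of_mem (hp i h)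
        · exact Finset.mem_insert_self _ _
      · intro i
        exact Finset.mem_insert_of_mem (hβ i i.2)
      · intro j hj
        exact Finset.mem_range.2 (hI j hj)
    · rw [hdec]
      dsimp only
      apply Finset.image_congr
      intro j hj
      have hjm := hI j hj
      have hτ1 : ∀ j, j < m → pp (xt (fun i : Fin m => τ i) 1) j = (p 0)⁻¹ * p j := by
        refine pp_tel p _ m ?_
        intro j hj
        rw [xt_restrict τ 1 (by omega), hτ]
        dsimp only
        rw [if_pos hj]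
      dsimp only
      rw [hτ1 j hjm, hτ1 k hkm, xt_restrict β 1 hkm, xt_restrict β 1 hjm, xt_restrict q v.1 hjm]
      have e1 : v.2.1 * (v.2.1⁻¹ * (p k * β k)) * (β k)⁻¹ * ((p 0)⁻¹ * p k)⁻¹ * ((p 0)⁻¹ * p j) =
          p j := by group
      rw [e1]

end Pool.Agent.Helper80.TM
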