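import Pool.Agent.Helper80.TM.Num
import Pool.Agent.Helper80.TM.Inc
import Pool.Agent.Helper65.FP.LLL

/-!
TM-08. Existence of the marks: the local lemma for two kinds of events: (B) no level of a piece is marked; (A) `r`
different variables near a path of `r * c` points are marked.
-/

set_option autoImplicit false

namespace Pool.Agent.Helper80.TM

open Pool.Agent.Helper65.TH
open Pool.Agent.Helper65.GN (Bdd Sep)
open Pool.Agent.Helper80.PP

theorem exists_marks {G : Type*} [Group G] (T B : Finset G) (t c : ℕ) :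
    ∃ J : ℕ, 1 ≤ J ∧ ∀ (L : Subgroup G) (C : Cells L T J t), ∃ (r : ℕ) (Mk : Set (Fin t × G × ℕ)),
      1 ≤ r ∧ (∀ q u, ∃ j, 1 ≤ j ∧ j ≤ J ∧ (q, u, j) ∈ Mk) ∧ C.Dodges B (r * c) r Mk := by
  classical
  obtain ⟨N, J, β, hβ, hJ, hnum⟩ := marks_num c (2 * (T.card + 1) * (B.card + 1) * (t + 1))
  refine ⟨J, hJ, fun L C => ?_⟩
  obtain ⟨r, hr, hr2⟩ := hnum C.E.card
  -- the events of the second kind
  set PA : Set (Finset (Fin t × G × ℕ)) := {P | ∃ (p b : ℕ → G) (q : ℕ → Fin t) (I : Finset ℕ),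
    I.card = r ∧ (∀ j ∈ I, j < r * c) ∧ (∀ j, j + 1 < r * c → (p j)⁻¹ * p (j + 1) ∈ T) ∧
    (∀ j < r * c, b j ∈ B) ∧ (∀ j ∈ I, C.d (q j) (p j * b j) ≤ J) ∧
    P = I.image (fun j => C.var (q j) (p j * b j)) ∧ P.card = r} with hPA
  have hinc : ∀ v : Fin t × G × ℕ, ∃ 𝒬 : Finset {P // P ∈ PA},
      𝒬.card ≤ C.E.card * (r * c) * (2 * (T.card + 1) * (B.card + 1) * (t + 1)) ^ (r * c) ∧
      ∀ e : {P // P ∈ PA}, v ∈ e.1 → e ∈ 𝒬 := by
    intro v
    obtain ⟨𝒬, hc, h𝒬⟩ := exists_inc C B (r * c) r v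
    refine ⟨𝒬.subtype (fun P => P ∈ PA), ?_, ?_⟩
    · rw [Finset.card_subtype]
      exact (Finset.card_filter_le _ _).trans hc
    · rintro ⟨P, hP⟩ hv
      rw [Finset.mem_subtype]
      obtain ⟨p, b, q, I, h1, h2, h3, h4, h5, h6, h7⟩ := hP
      have h8 : v ∈ I.image (fun j => C.var (q j) (p j * b j)) := h6 ▸ hv
      exact h6 ▸ h𝒬 p b q I h1 h2 h3 h4 h5 h8
  choose incA hincA hincA' using hinc
  set ι := (Fin t × G) ⊕ {P // P ∈ PA} with hι
  set sp : ι → Finset (Fin t × G × ℕ) := fun e => Sum.elim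
    (fun e : Fin t × G => (Finset.Icc 1 J).image (fun j => (e.1, e.2, j))) (fun e => e.1) e with hsp
  set bad : ι → Finset (Fin N) := fun e => Sum.elim
    (fun _ => Finset.univ.filter fun z : Fin N => (z : ℕ) ≠ 0)
    (fun _ => Finset.univ.filter fun z : Fin N => (z : ℕ) = 0) e with hbad
  have hspl : ∀ e : Fin t × G, (sp (Sum.inl e)).card = J := by
    intro e
    show ((Finset.Icc 1 J).image (fun j => (e.1, e.2, j))).card = J
    rw [Finset.card_image_of_injective, Nat.card_Icc, Nat.add_sub_cancel]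
    intro i j hij
    exact (Prod.ext_iff.1 (Prod.ext_iff.1 hij).2).2
  have hspr : ∀ e : {P // P ∈ PA}, (sp (Sum.inr e)).card = r := by
    rintro ⟨P, hP⟩
    obtain ⟨p, b, q, I, h1, h2, h3, h4, h5, h6, h7⟩ := hP
    exact h7
  have hbl : ∀ e : Fin t × G, (bad (Sum.inl e)).card ≤ N - 1 := by
    intro e
    show (Finset.univ.filter fun z : Fin N => (z : ℕ) ≠ 0).card ≤ N - 1
    rcases Nat.eq_zero_or_pos N with h0 | h0
    · subst h0
      simp
    · have h1 : (Finset.univ.filter fun z : Fin N => (z : ℕ) ≠ 0) ⊆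
          Finset.univ.erase (⟨0, h0⟩ : Fin N) := by
        intro z hz
        rw [Finset.mem_erase]
        refine ⟨?_, Finset.mem_univ _⟩
        rintro rfl
        exact (Finset.mem_filter.1 hz).2 rfl
      refine (Finset.card_le_card h1).trans ?_
      rw [Finset.card_erase_of_mem (Finset.mem_univ _), Finset.card_univ, Fintype.card_fin]
  have hbr : ∀ e : {P // P ∈ PA}, (bad (Sum.inr e)).card ≤ 1 := by
    intro e
    show (Finset.univ.filter fun z : Fin N => (z : ℕ) = 0).card ≤ 1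
    rw [Finset.card_le_one]
    intro a ha b hb
    apply Fin.ext
    rw [(Finset.mem_filter.1 ha).2, (Finset.mem_filter.1 hb).2]
  obtain ⟨f, hf⟩ := Pool.Agent.Helper65.FP.local_lemma N sp bad β hβ
    (fun v => ({Sum.inl (v.1, v.2.1)} : Finset ι) ∪ (incA v).image Sum.inr) (by
      rintro v (e | e) hv
      · obtain ⟨j, -, rfl⟩ := Finset.mem_image.1 hv
        exact Finset.mem_union_left _ (Finset.mem_singleton_self _)
      · exact Finset.mem_union_right _ (Finset.mem_image_of_mem _ (hincA' v e hv))) (by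
      rintro (e | e)
      · rw [← Finset.card_pos, hspl]; omega
      · rw [← Finset.card_pos, hspr]; omega) (by
      intro v
      refine le_trans ?_ hr2
      refine (Finset.sum_le_sum_of_subset_of_nonneg (Finset.Subset.refl _)
        (fun _ _ _ => by positivity)).trans ?_
      have hle : ∀ (A A' : Finset ι) (g : ι → ℝ), (∀ e, 0 ≤ g e) →
          ∑ e ∈ A ∪ A', g e ≤ ∑ e ∈ A, g e + ∑ e ∈ A', g e := by
        intro A A' g hg
        rw [← Finset.sum_union_inter]
        have := Finset.sum_nonneg (fun e (_ : e ∈ A ∩ A') => hg e)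
        linarith
      refine (hle _ _ _ fun e => by positivity).trans (add_le_add ?_ ?_)
      · rw [Finset.sum_singleton, hspl]
        gcongr
        exact hbl _
      · have h1 : ∀ e ∈ (incA v).image (Sum.inr : {P // P ∈ PA} → ι),
            ((bad e).card : ℝ) ^ (sp e).card / β ^ ((sp e).card - 1) ≤ 1 / β ^ (r - 1) := by
          intro e he
          obtain ⟨e', -, rfl⟩ := Finset.mem_image.1 he
          rw [hspr]
          gcongr
          exact pow_le_one₀ (by positivity) (by exact_mod_cast hbr e')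
        refine (Finset.sum_le_sum h1).trans ?_
        rw [Finset.sum_const, nsmul_eq_mul, mul_one_div]
        gcongr
        exact Finset.card_image_le.trans (hincA v))
  refine ⟨r, {v | ((f v : Fin N) : ℕ) = 0}, hr, ?_, ?_⟩
  · intro q u
    obtain ⟨v, hv, hv2⟩ := hf (Sum.inl (q, u))
    obtain ⟨j, hj, rfl⟩ := Finset.mem_image.1 hv
    rw [Finset.mem_Icc] at hj
    refine ⟨j, hj.1, hj.2, ?_⟩
    by_contra h0
    exact hv2 (Finset.mem_filter.2 ⟨Finset.mem_univ _, h0⟩)
  · intro p b I hI hIm hp hb hleaf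
    by_contra hcon
    push Not at hcon
    have hW : ∀ j ∈ I, ∃ q, 1 ≤ C.d q (p j * b j) ∧ C.d q (p j * b j) ≤ J ∧
        ((f (C.var q (p j * b j)) : Fin N) : ℕ) = 0 := fun j hj => hcon j hj
    have hI0 : ∃ j₀, j₀ ∈ I := by
      by_contra h0
      push Not at h0
      have : I = ∅ := Finset.eq_empty_of_forall_notMem h0
      rw [this, Finset.card_empty] at hI
      omega
    obtain ⟨j₀, hj₀⟩ := hI0
    obtain ⟨q₀, -⟩ := hW j₀ hj₀
    set q : ℕ → Fin t := fun j => if hj : j ∈ I then (hW j hj).choose else q₀ with hq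
    have hqj : ∀ j ∈ I, 1 ≤ C.d (q j) (p j * b j) ∧ C.d (q j) (p j * b j) ≤ J ∧
        ((f (C.var (q j) (p j * b j)) : Fin N) : ℕ) = 0 := by
      intro j hj
      have : q j = (hW j hj).choose := by rw [hq]; simp only [hj, dite_true]
      rw [this]
      exact (hW j hj).choose_spec
    have hcen : ∀ j ∈ I, (C.c (q j) (p j * b j))⁻¹ * (p j * b j) ∈ L := fun j hj =>
      C.hE _ (C.near _ _ (hqj j hj).2.1)
    have hinj : Set.InjOn (fun j => C.var (q j) (p j * b j)) I := by
      intro i hi j hj hij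
      by_contra hne
      apply hleaf i hi j hj hne
      have h1 : C.c (q i) (p i * b i) = C.c (q j) (p j * b j) :=
        (Prod.ext_iff.1 (Prod.ext_iff.1 hij).2).1
      have h2 := L.mul_mem (L.inv_mem (hcen i hi)) (hcen j hj)
      rw [h1] at h2
      have e1 : ((C.c (q j) (p j * b j))⁻¹ * (p i * b i))⁻¹ *
          ((C.c (q j) (p j * b j))⁻¹ * (p j * b j)) = (p i * b i)⁻¹ * (p j * b j) := by group
      rwa [e1] at h2
    have hP : I.image (fun j => C.var (q j) (p j * b j)) ∈ PA :=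
      ⟨p, b, q, I, hI, hIm, hp, hb, fun j hj => (hqj j hj).2.1, rfl, by
        rw [Finset.card_image_of_injOn hinj, hI]⟩
    obtain ⟨v, hv, hv2⟩ := hf (Sum.inr ⟨_, hP⟩)
    obtain ⟨j, hj, rfl⟩ := Finset.mem_image.1 hv
    exact hv2 (Finset.mem_filter.2 ⟨Finset.mem_univ _, (hqj j hj).2.2⟩)

end Pool.Agent.Helper80.TM
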