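import Pool.Agent.Helper80.TM.Cells

/-!
TM-04. A shortest chain gives an injective path.
-/

set_option autoImplicit false

namespace Pool.Agent.Helper80.TM

open Pool.Agent.Helper65.TH
open Pool.Agent.Helper65.GN (Bdd Sep)
open Pool.Agent.Helper80.PP

/-- a chain which leaves the ball of radius `n` contains an injective path of `n` steps -/
theorem exists_path {G : Type*} [Group G] (T T' : Finset G) (hT : T ⊆ T') (h1 : (1 : G) ∈ T')
    (A : Set G) (n : ℕ) (x y : G) (hx : x ∈ A)
    (h : Chain (T : Set G) (fun b => b ∈ A) x y) (hxy : x⁻¹ * y ∉ Sp T' n) :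
    ∃ p : ℕ → G, p 0 = x ∧ (∀ j ≤ n, p j ∈ A) ∧ (∀ j < n, (p j)⁻¹ * p (j + 1) ∈ T) ∧
      ∀ i ≤ n, ∀ j ≤ n, p i = p j → i = j := by
  classical
  obtain ⟨P, hP⟩ : ∃ P : ℕ → Prop, ∀ m, P m ↔ ∃ p : ℕ → G, p 0 = x ∧ p m = y ∧
      (∀ j ≤ m, p j ∈ A) ∧ ∀ j < m, (p j)⁻¹ * p (j + 1) ∈ T := ⟨_, fun _ => Iff.rfl⟩
  have hex : ∃ m, P m := by
    obtain ⟨m, hm⟩ : ∃ (m : ℕ), ∃ p : ℕ → G, p 0 = x ∧ p m = y ∧
        (∀ j ≤ m, p j ∈ A) ∧ ∀ j < m, (p j)⁻¹ * p (j + 1) ∈ T := by
      refine h.rec' (R := fun z => ∃ (m : ℕ), ∃ p : ℕ → G, p 0 = x ∧ p m = z ∧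
        (∀ j ≤ m, p j ∈ A) ∧ ∀ j < m, (p j)⁻¹ * p (j + 1) ∈ T) ?_ ?_
      · exact ⟨0, fun _ => x, rfl, rfl, fun _ _ => hx, fun j hj => absurd hj (Nat.not_lt_zero j)⟩
      · rintro a b _ ⟨m, p, h0, hm, hA, hs⟩ hab hb
        refine ⟨m + 1, fun j => if j ≤ m then p j else b, ?_, ?_, ?_, ?_⟩
        · simp only [Nat.zero_le, if_true]
          exact h0
        · simp only [Nat.not_succ_le_self, if_false]
        · intro j hj
          by_cases hjm : j ≤ m
          · simp only [hjm, if_true]
            exact hA j hjm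
          · simp only [hjm, if_false]
            exact hb
        · intro j hj
          have hjm : j ≤ m := by omega
          rcases Nat.lt_or_ge j m with hlt | hge
          · have hjm1 : j + 1 ≤ m := hlt
            simp only [hjm, hjm1, if_true]
            exact hs j hlt
          · have hjm1 : ¬ j + 1 ≤ m := by omega
            have hje : j = m := by omega
            simp only [hjm, hjm1, if_true, if_false]
            rw [hje, hm]
            exact hab
    exact ⟨m, (hP m).2 hm⟩
  obtain ⟨m, hPm, hmin⟩ : ∃ m, P m ∧ ∀ k < m, ¬ P k :=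
    ⟨Nat.find hex, Nat.find_spec hex, fun k hk => Nat.find_min hex hk⟩
  obtain ⟨p, h0, hm, hA, hs⟩ := (hP m).1 hPm
  have hlt : ∀ i j, i < j → j ≤ m → p i ≠ p j := by
    intro i j hij hj he
    apply hmin (m - (j - i)) (by omega)
    rw [hP]
    refine ⟨fun k => if k ≤ i then p k else p (k + (j - i)), ?_, ?_, ?_, ?_⟩
    · simp only [Nat.zero_le, if_true]
      exact h0
    · by_cases hk : m - (j - i) ≤ i
      · have hmj : m = j := by omega
        have hki : m - (j - i) = i := by omega
        simp only [hk, if_true]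
        rw [hki, he, ← hmj, hm]
      · simp only [hk, if_false]
        rw [show m - (j - i) + (j - i) = m by omega, hm]
    · intro k hk
      by_cases hki : k ≤ i
      · simp only [hki, if_true]
        exact hA k (by omega)
      · simp only [hki, if_false]
        exact hA _ (by omega)
    · intro k hk
      rcases Nat.lt_trichotomy k i with hki | hki | hki
      · have h2 : k ≤ i := hki.le
        have h3 : k + 1 ≤ i := hki
        simp only [h2, h3, if_true]
        exact hs k (by omega)
      · have h2 : k ≤ i := hki.le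
        have h3 : ¬ k + 1 ≤ i := by omega
        simp only [h2, h3, if_true, if_false]
        rw [hki, he, show i + 1 + (j - i) = j + 1 by omega]
        exact hs j (by omega)
      · have h2 : ¬ k ≤ i := by omega
        have h3 : ¬ k + 1 ≤ i := by omega
        simp only [h2, h3, if_false]
        rw [show k + 1 + (j - i) = k + (j - i) + 1 by omega]
        exact hs _ (by omega)
  have hSp : ∀ j ≤ m, (p 0)⁻¹ * p j ∈ Sp T' j := by
    intro j
    induction j with
    | zero =>
      intro _
      rw [inv_mul_cancel, Sp]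
      exact Finset.mem_singleton_self _
    | succ j ih =>
      intro hj
      have e1 : (p 0)⁻¹ * p (j + 1) = ((p 0)⁻¹ * p j) * ((p j)⁻¹ * p (j + 1)) := by group
      rw [e1]
      exact sp_mul_right (ih (by omega)) (hT (hs j (by omega)))
  have hnm : n < m := by
    by_contra hc
    apply hxy
    have := hSp m le_rfl
    rw [h0, hm] at this
    exact sp_mono h1 (by omega) this
  refine ⟨p, h0, fun j hj => hA j (by omega), fun j hj => hs j (by omega), ?_⟩
  intro i hi j hj he
  rcases Nat.lt_trichotomy i j with hij | hij | hij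
  · exact absurd he (hlt i j hij (by omega))
  · exact hij
  · exact absurd he.symm (hlt j i hij (by omega))

end Pool.Agent.Helper80.TM
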