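import Pool.Agent.Helper80.TM.Mix
import Pool.Agent.Helper80.TM.Marks
import Pool.Agent.Helper80.TM.Path
import Pool.Agent.Helper80.TM.Leaves
import Pool.Agent.Helper65.GN.Union

/-!
TM-14. The linear bound implies the mixed form; the linear bound for tame steps.

Proof of `mix_of_lin`. Let `a`, `E`, `c` be as in `Lin K L n` for `T`, `B`, and `T' = T ∪ {f * e * f' | f, f' ∈ T, e ∈ E}`.
Let `W` be the cut set of marks for `T'`, `B`, `c`. Put `w x = a x` for `x ∈ W` and `w x = 0` otherwise. Then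
`{w = 0}` is the union of `{a = 0}` and the complement of `W`, which is `T'`-bounded. A shortest chain in the
thickened class `i ≥ 1` has different points; if it had `r * c` points there would be `r` points of `W` in different
leaves near it.
-/

set_option autoImplicit false

namespace Pool.Agent.Helper80.TM

open Pool.Agent.Helper65.TH
open Pool.Agent.Helper65.GN
open Pool.Agent.Helper80.PP

theorem mix_of_lin {G : Type*} [Group G] (K L : Subgroup G) {t n : ℕ} (hL : AsdimLT L t)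
    (h : Lin K L n) : MixSep K L n := by
  classical
  intro T B hT hB
  obtain ⟨a, E, c, han, ha0, hc1, hac⟩ := h T B hT hB
  set T' : Finset G := T ∪ (T ×ˢ (E.filter (fun e => e ∈ L)) ×ˢ T).image
    (fun q => q.1 * q.2.1 * q.2.2) with hT'
  have hTT' : T ⊆ T' := Finset.subset_union_left
  have hT'L : ∀ s ∈ T', s ∈ L := by
    intro s hs
    rcases Finset.mem_union.1 hs with hs | hs
    · exact hT s hs
    · obtain ⟨⟨f, e, f'⟩, hq, rfl⟩ := Finset.mem_image.1 hs
      simp only [Finset.mem_product] at hq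
      exact L.mul_mem (L.mul_mem (hT f hq.1) (Finset.mem_filter.1 hq.2.1).2) (hT f' hq.2.2)
  obtain ⟨J, hJ, hmk⟩ := exists_marks T' B t c
  obtain ⟨D⟩ := exists_cells L hL T' hT'L J
  obtain ⟨r, Mk, hr, hMk, hdod⟩ := hmk L D
  obtain ⟨E0, hE0⟩ := D.bdd_compl Mk hMk
  set W : Set G := D.W Mk with hW
  have hm : 1 ≤ r * c := Nat.mul_pos hr hc1
  have hun := bdd_union L T hT {x | a x = 0} Wᶜ E T' E0 ha0 hE0 hTT' (by
    intro f hf e he heL f' hf'
    refine Finset.mem_union_right _ (Finset.mem_image.2 ⟨(f, e, f'), ?_, rfl⟩)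
    simp only [Finset.mem_product]
    exact ⟨hf, Finset.mem_filter.2 ⟨he, heL⟩, hf'⟩)
  refine ⟨fun x => if x ∈ W then a x else 0, suE T E E0 ∪ Sp (insert 1 T) (r * c - 1), ?_, ?_, ?_⟩
  · intro x
    dsimp only
    split_ifs with hx
    · exact han x
    · exact Nat.zero_le _
  · have hsub : ∀ x, (if x ∈ W then a x else 0) = 0 → x ∈ {x | a x = 0} ∪ Wᶜ := by
      intro x hx
      by_cases hxW : x ∈ W
      · rw [if_pos hxW] at hx
        exact Or.inl hx
      · exact Or.inr hxW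
    intro x hx y hxy
    exact Finset.mem_union_left _ (hun x (hsub x hx) y (hxy.mono le_rfl hsub))
  · intro i hi
    set A : Set G := {x | ∃ b ∈ B, (if x * b ∈ W then a (x * b) else 0) = i} with hA
    have hsub : ∀ x ∈ A, ∃ b ∈ B, x * b ∈ W ∧ a (x * b) = i := by
      rintro x ⟨b, hb, hxb⟩
      by_cases h1 : x * b ∈ W
      · rw [if_pos h1] at hxb
        exact ⟨b, hb, h1, hxb⟩
      · rw [if_neg h1] at hxb
        omega
    intro x hx y hxy
    by_contra hcon
    have hxy' : x⁻¹ * y ∉ Sp (insert 1 T) (r * c - 1) := fun h =>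
      hcon (Finset.mem_union_right _ h)
    obtain ⟨p, hp0, hpA, hpT, hpinj⟩ := exists_path T (insert 1 T) (Finset.subset_insert _ _)
      (Finset.mem_insert_self _ _) A (r * c - 1) x y hx hxy hxy'
    have hch : ∀ j, ∃ b, j < r * c → b ∈ B ∧ p j * b ∈ W ∧ a (p j * b) = i := by
      intro j
      by_cases hj : j < r * c
      · obtain ⟨b, hb1, hb2, hb3⟩ := hsub (p j) (hpA j (by omega))
        exact ⟨b, fun _ => ⟨hb1, hb2, hb3⟩⟩
      · exact ⟨1, fun h => absurd h hj⟩
    choose β hβ using hch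
    obtain ⟨I, hI1, hI2, hI3⟩ := hac r i p β hi (fun j hj => hpT j (by omega))
      (fun i' hi' j' hj' => hpinj i' (by omega) j' (by omega)) (fun j hj => (hβ j hj).1)
      (fun j hj => (hβ j hj).2.2)
    obtain ⟨j, hj, hjW⟩ := hdod p β I hI1 hI2 (fun j hj => hTT' (hpT j (by omega)))
      (fun j hj => (hβ j hj).1) hI3
    exact hjW (hβ j (hI2 j hj)).2.1

/-- the linear bound in the tame case -/
theorem lin_tame {G : Type*} [Group G] (K C L : Subgroup G) {n : ℕ} (hn : MixSep C L n)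
    (hfin : ∀ g ∈ K, g ∉ C → {l | l ∈ L ∧ g⁻¹ * l * g ∈ L}.Finite) : Lin K L n := by
  classical
  intro T B hT hB
  obtain ⟨a, Ea, han, ha0, haE⟩ := hn T (B.filter (fun b => b ∈ C)) hT
    (fun b hb => (Finset.mem_filter.1 hb).2)
  obtain ⟨Φ₀, hΦ₀⟩ := exists_phi K C L hfin B hB
  set Φ : Finset G := insert 1 Φ₀ with hΦdef
  have hΦ : ∀ b ∈ B, b ∉ C → ∀ b' ∈ B, ∀ l ∈ L, b⁻¹ * l * b' ∈ L → l ∈ Φ :=
    fun b hb hbC b' hb' l hl hl' => Finset.mem_insert_of_mem (hΦ₀ b hb hbC b' hb' l hl hl')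
  have hΦ1 : Φ.Nonempty := ⟨1, Finset.mem_insert_self _ _⟩
  refine ⟨a, Ea, Φ.card * (Ea.card + 1), han, ha0,
    Nat.mul_pos (Finset.card_pos.2 hΦ1) (Nat.succ_pos _), ?_⟩
  intro r i p β hi hp hinj hβ hai
  refine exists_leaves C L T B a i Ea Φ hT ?_ hΦ hΦ1 r p β hp hinj hβ hai
  intro z hz u hzu
  have := haE i hi
  refine this z ?_ u (hzu.mono le_rfl ?_)
  · obtain ⟨b, hb, hbC, hbi⟩ := hz
    exact ⟨b, Finset.mem_filter.2 ⟨hb, hbC⟩, hbi⟩
  · rintro z' ⟨b, hb, hbC, hbi⟩
    exact ⟨b, Finset.mem_filter.2 ⟨hb, hbC⟩, hbi⟩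

/-- the tame step: the number of families does not change -/
theorem mix_tame {G : Type*} [Group G] (K C L : Subgroup G) {t n : ℕ} (hL : AsdimLT L t)
    (hn : MixSep C L n)
    (hfin : ∀ g ∈ K, g ∉ C → {l | l ∈ L ∧ g⁻¹ * l * g ∈ L}.Finite) : MixSep K L n :=
  mix_of_lin K L hL (lin_tame K C L hn hfin)

end Pool.Agent.Helper80.TM
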