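import Pool.Agent.Helper80.HY.CutH
import Pool.Agent.Helper80.TM.CutDefs
import Pool.Agent.Helper74.RT.LinRel
import Pool.Agent.Helper80.TM.Lin
import Pool.Agent.Helper80.TM.SepMix
import Pool.Agent.Helper65.FZ.Final
import Pool.Agent.Helper13.FZ.MPart

/-!
# TM-11: the relation `CutZ n K L` and its consequence `Sep K L n`
-/

set_option autoImplicit false

universe u

namespace Pool.Agent.Helper80.TM

open Pool.Agent.Helper65.TH Pool.Agent.Helper65.GN Pool.Agent.Helper65.FP Pool.Agent.Helper80.HY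
open Pool.Agent.Helper80.PP
open scoped Pointwise

variable {G : Type u} [Group G]

/-- separated subgroups have finite asymptotic dimension -/
theorem asdimLT_of_sep {K L : Subgroup G} {n : ℕ} (hL : L ≤ K) (h : Sep K L n) :
    AsdimLT L (n + 1) := by
  classical
  intro F
  obtain ⟨w, E, hw, h0, hi⟩ := h (F.image Subtype.val) (F.image Subtype.val) (by
    intro s hs
    obtain ⟨u, -, rfl⟩ := Finset.mem_image.1 hs
    exact u.2) (by
    intro s hs
    obtain ⟨u, -, rfl⟩ := Finset.mem_image.1 hs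
    exact hL u.2)
  have hb : ∀ i, Bdd ((F.image Subtype.val : Finset G) : Set G) {x | w x = i} E := by
    intro i
    rcases Nat.eq_zero_or_pos i with rfl | h1
    · exact h0
    · exact hi i h1
  refine ⟨E.subtype (fun e => e ∈ L), fun i => {x | w x = i}, fun x =>
    ⟨⟨w x, Nat.lt_succ_of_le (hw x)⟩, rfl⟩, ?_⟩
  intro i x hx y hxy
  rw [Finset.mem_subtype]
  refine hb i (x : G) hx (y : G) (hxy.map (fun z : L => (z : G)) ?_)
  intro a b hs hb'
  refine ⟨?_, hb'⟩
  rw [Finset.mem_coe, Finset.mem_image]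
  exact ⟨a⁻¹ * b, hs, rfl⟩

theorem CutZ.sep {n : ℕ} {K L : Subgroup G} (h : CutZ n K L) : Sep K L n := by
  induction h with
  | hyp L d h => exact (CutH.hyp L d h).sep
  | asdim K t h => exact sep_of_asdim K h K
  | growth T C d h1 hinv h => exact sep_growth T h1 hinv C d h
  | prod K L r ψ hL hK =>
    exact Pool.Agent.Helper65.FZ.sep_leaf K L hL hK ψ fun B =>
      Pool.Agent.Helper13.FZ.mpart ψ (Pool.Agent.Helper65.FZ.gens ψ) B
        (fun t => Pool.Agent.Helper65.FZ.gens_sub ψ)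
  | mono n n' K K' L L' _ hn hK hL ih => exact sep_mono_n (ih.mono hK hL) hn
  | index n K L L' _ hK _ hi ih => exact sep_index K L L' hK hi ih
  | free K r A n hA hinj _ ih => exact sep_free K A hA hinj n ih
  | comm n K K' L _ hL hK hc ih => exact sep_comm K K' L hL hK hc.commT ih
  | rooted n K K' L _ hL hK hr ih => exact sep_rooted K K' L hL hK hr ih
  | tame n K K' L _ hL hK hK' hf ih =>
    exact sep_of_mix K' L (hL.trans hK) hK' (mix_tame K' K L (asdimLT_of_sep hL ih)
      (mix_of_sep K L hL ih) hf)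
  | rel n m K K' L _ hL hK hK' hP ih =>
    exact sep_of_mix K' L (hL.trans hK) hK' (mix_of_lin K' L (asdimLT_of_sep hL ih)
      (Pool.Agent.Helper74.RT.lin_rel K' K L (hL.trans hK) n m (mix_of_sep K L hL ih) hP))
  | union n L S hne hdir _ ih =>
    intro T F hT hF
    obtain ⟨K, hK, hFK⟩ := exists_mem_of_directed S hne hdir F hF
    exact ih K hK T F hT hFK

theorem cutZ_of_cutH {n : ℕ} {K L : Subgroup G} (h : CutH n K L) : CutZ n K L := by
  induction h with
  | hyp L d h => exact CutZ.hyp L d h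
  | asdim K t h => exact CutZ.asdim K t h
  | growth T C d h1 hinv h => exact CutZ.growth T C d h1 hinv h
  | mono n n' K K' L L' _ hn hK hL ih => exact CutZ.mono n n' K K' L L' ih hn hK hL
  | index n K L L' _ hK hL hi ih => exact CutZ.index n K L L' ih hK hL hi
  | free K r A n hA hinj _ ih => exact CutZ.free K r A n hA hinj ih
  | comm n K K' L _ hL hK hc ih => exact CutZ.comm n K K' L ih hL hK hc
  | rooted n K K' L _ hL hK hr ih => exact CutZ.rooted n K K' L ih hL hK hr
  | union n L S hne hdir _ ih => exact CutZ.union n L S hne hdir ih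

theorem conj_eq (g : G) (L : Subgroup G) :
    ConjAct.toConjAct g • L = L.map (MulAut.conj g).toMonoidHom := by
  ext x
  simp only [Subgroup.mem_map, Subgroup.mem_smul_pointwise_iff_exists]
  rfl

theorem conj_self {g : G} {L : Subgroup G} (hg : g ∈ L) :
    L.map (MulAut.conj g).toMonoidHom = L := by
  rw [← conj_eq]
  ext x
  rw [Subgroup.mem_pointwise_smul_iff_inv_smul_mem]
  simp only [ConjAct.smul_def, ConjAct.ofConjAct_inv, ConjAct.ofConjAct_toConjAct, inv_inv]
  constructor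
  · intro hx
    have := L.mul_mem (L.mul_mem hg hx) (L.inv_mem hg)
    have e1 : g * (g⁻¹ * x * g) * g⁻¹ = x := by group
    rwa [e1] at this
  · intro hx
    exact L.mul_mem (L.mul_mem (L.inv_mem hg) hx) hg

theorem commensurated_of_index {L' L : Subgroup G} (hL : L' ≤ L) (hi : L'.relIndex L ≠ 0) :
    Commensurated L' L := by
  intro g hg
  have h1 : (L'.map (MulAut.conj g).toMonoidHom).relIndex L ≠ 0 := by
    have h2 := hi
    rw [← Subgroup.relIndex_pointwise_smul (ConjAct.toConjAct g), conj_eq, conj_eq,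
      conj_self hg] at h2
    exact h2
  exact fun h0 => h1 (Subgroup.relIndex_eq_zero_of_le_right hL h0)

theorem cutZ_of_finOrComm (hG : LocFin (⊤ : Subgroup G)) {L : Subgroup G} {t : ℕ}
    (hd : AsdimLT L t) (h : FinOrComm L) : CutZ t ⊤ L := by
  set C : Subgroup G := Subgroup.Commensurable.commensurator L with hC
  have hmem : ∀ g : G, g ∈ C ↔ (L.map (MulAut.conj g).toMonoidHom).relIndex L ≠ 0 ∧
      L.relIndex (L.map (MulAut.conj g).toMonoidHom) ≠ 0 := by
    intro g
    rw [hC, Subgroup.Commensurable.commensurator_mem_iff, conj_eq]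
    exact Iff.rfl
  have hLC : L ≤ C := by
    intro g hg
    rw [hmem, conj_self hg, Subgroup.relIndex_self]
    exact ⟨one_ne_zero, one_ne_zero⟩
  have hcomm : Commensurated L C := fun g hg => ((hmem g).1 hg).1
  refine CutZ.tame t C ⊤ L (CutZ.comm t L C L (CutZ.asdim L t hd) le_rfl hLC hcomm) hLC le_top
    hG ?_
  intro g _ hgC
  by_contra hinf
  have h1 := (h g).resolve_left hinf
  have hinf2 : ¬ {l | l ∈ L ∧ (g⁻¹)⁻¹ * l * g⁻¹ ∈ L}.Finite := by
    intro hfin
    apply hinf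
    refine (hfin.image (fun l => g * l * g⁻¹)).subset ?_
    rintro l ⟨hl, hl'⟩
    refine ⟨g⁻¹ * l * g, ⟨hl', ?_⟩, by group⟩
    have e1 : (g⁻¹)⁻¹ * (g⁻¹ * l * g) * g⁻¹ = l := by group
    rwa [e1]
  have h2 := (h g⁻¹).resolve_left hinf2
  apply hgC
  rw [hmem]
  refine ⟨h1, ?_⟩
  rw [← conj_eq] at h2 ⊢
  rw [← Subgroup.relIndex_pointwise_smul (ConjAct.toConjAct g), smul_smul, ← map_mul,
    mul_inv_cancel, map_one, one_smul] at h2
  exact h2

theorem VirtProd.asdim {L : Subgroup G} (h : VirtProd L) : ∃ t, AsdimLT L t := by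
  obtain ⟨r, L', hL, hi, ⟨ψ⟩⟩ := h
  have h1 : CutZ 4 L' L' := CutZ.asdim L' 4 (Pool.Agent.Helper65.FZ.asdimLT_leaf ψ)
  have hc : Commensurated L' L := commensurated_of_index hL hi
  exact ⟨_, asdimLT_of_sep le_rfl (CutZ.index 4 L L' L (CutZ.comm 4 L' L L' h1 le_rfl hL hc)
    le_rfl hL hi).sep⟩

theorem VirtProd.cut (hG : LocFin (⊤ : Subgroup G)) {L : Subgroup G} (h : VirtProd L) :
    CutZ 7 ⊤ L := by
  obtain ⟨r, L', hL, hi, ⟨ψ⟩⟩ := h
  exact CutZ.index 7 ⊤ L' L (CutZ.prod ⊤ L' r ψ le_top hG) le_top hL hi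

theorem cutZ_tower (H : ℕ → Subgroup G) (hle : ∀ n, H n ≤ H (n + 1))
    (hs : ∀ n, Commensurated (H n) (H (n + 1)) ∨ Rooted (H n) (H (n + 1)) ∨
      AlmostMalnormal (H n) (H (n + 1))) (has : ∀ n, ∃ t : ℕ, AsdimLT (H n) t) (m t : ℕ)
    (ht : AsdimLT (H m) t) : ∀ n, m ≤ n → CutZ t (H n) (H m) := by
  have hmono : Monotone H := monotone_nat_of_le_succ hle
  intro n hmn
  induction n, hmn using Nat.le_induction with
  | base => exact CutZ.asdim _ _ ht
  | succ n hn ih =>
    rcases hs n with h | h | h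
    · exact CutZ.comm _ _ _ _ ih (hmono hn) (hle n) h
    · exact CutZ.rooted _ _ _ _ ih (hmono hn) (hle n) h
    · refine CutZ.tame _ _ _ _ ih (hmono hn) (hle n) ?_ ?_
      · intro S hS
        obtain ⟨t', ht'⟩ := has (n + 1)
        exact ⟨H (n + 1), t', hS, ht'⟩
      · intro g hg hgn
        refine (h g hg hgn).subset ?_
        rintro l ⟨hl, hl'⟩
        exact ⟨hmono hn hl, hmono hn hl'⟩

/-- towers of commensurated, rooted and almost malnormal subgroups -/
theorem cutZ_of_tower (H : ℕ → Subgroup G) (hle : ∀ n, H n ≤ H (n + 1))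
    (hs : ∀ n, Commensurated (H n) (H (n + 1)) ∨ Rooted (H n) (H (n + 1)) ∨
      AlmostMalnormal (H n) (H (n + 1)))
    (hun : ∀ g : G, ∃ n, g ∈ H n) (has : ∀ n, ∃ t : ℕ, AsdimLT (H n) t) (T : Finset G) :
    ∃ (n : ℕ) (L : Subgroup G), (∀ s ∈ T, s ∈ L) ∧ CutZ n ⊤ L := by
  have hmono : Monotone H := monotone_nat_of_le_succ hle
  choose f hf using hun
  obtain ⟨m, hm⟩ : ∃ m, ∀ s ∈ T, s ∈ H m :=
    ⟨T.sup f, fun s hs => hmono (Finset.le_sup (f := f) hs) (hf s)⟩
  obtain ⟨t, ht⟩ := has m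
  refine ⟨t, H m, hm, ?_⟩
  have htop : sSup {K | ∃ n, m ≤ n ∧ K = H n} = (⊤ : Subgroup G) := by
    rw [eq_top_iff]
    intro g _
    have h1 : H (max m (f g)) ≤ sSup {K | ∃ n, m ≤ n ∧ K = H n} :=
      le_sSup ⟨max m (f g), le_max_left _ _, rfl⟩
    exact h1 (hmono (le_max_right _ _) (hf g))
  rw [← htop]
  refine CutZ.union _ _ _ ⟨H m, m, le_rfl, rfl⟩ ?_ ?_
  · rintro _ ⟨a, ha, rfl⟩ _ ⟨b, hb, rfl⟩
    exact ⟨H (max a b), ⟨max a b, ha.trans (le_max_left _ _), rfl⟩, hmono (le_max_left _ _),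
      hmono (le_max_right _ _)⟩
  · rintro _ ⟨n, hmn, rfl⟩
    exact cutZ_tower H hle hs has m t ht n hmn

end Pool.Agent.Helper80.TM
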