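import Pool.Agent.Helper80.PP.Thick

/-!
TM-00. Cells with depth functions; the cut set of a set of marks.

`Cells L T J t`: for each of `t` colours `r` there are a depth function `d r` and a centre function
`c r`, such that every point has depth `0` for some colour, the depth grows by at most one along a step in `T`
and the centre does not change (as long as the depth is less than `J`), and the points of depth at most `J` are
near their centres. `C.var r x = (r, c r x, d r x)` is the variable of colour `r` of the point `x` (relevant for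
`1 ≤ d r x ≤ J`), `C.W Mk` the set of the points one of whose variables is marked.
-/

set_option autoImplicit false

namespace Pool.Agent.Helper80.TM

open Pool.Agent.Helper65.TH (Chain AsdimLT)
open Pool.Agent.Helper65.GN (Bdd Sep)
open Pool.Agent.Helper80.PP

structure Cells {G : Type*} [Group G] (L : Subgroup G) (T : Finset G) (J t : ℕ) where
  d : Fin t → G → ℕ
  c : Fin t → G → G
  E : Finset G
  hE : ∀ e ∈ E, e ∈ L
  cov : ∀ x, ∃ r, d r x = 0
  step : ∀ r x s, s ∈ T → d r x < J → d r (x * s) ≤ d r x + 1 ∧ c r (x * s) = c r x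
  near : ∀ r x, d r x ≤ J → (c r x)⁻¹ * x ∈ E

variable {G : Type*} [Group G] {L : Subgroup G} {T : Finset G} {J t : ℕ}

/-- the variable of colour `r` of the point `x` -/
def Cells.var (C : Cells L T J t) (r : Fin t) (x : G) : Fin t × G × ℕ := (r, C.c r x, C.d r x)

/-- the cut set of a set of marks -/
def Cells.W (C : Cells L T J t) (Mk : Set (Fin t × G × ℕ)) : Set G :=
  {x | ∃ r, 1 ≤ C.d r x ∧ C.d r x ≤ J ∧ C.var r x ∈ Mk}

/-- `Dodges C B m r Mk`: there is no path of `m` points with steps in `T` near which there are `r` points of the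
cut set in different leaves (cosets `x L`), where near means `x_j * b_j` with `b_j ∈ B`. -/
def Cells.Dodges (C : Cells L T J t) (B : Finset G) (m r : ℕ) (Mk : Set (Fin t × G × ℕ)) : Prop :=
  ∀ (p β : ℕ → G) (I : Finset ℕ), I.card = r → (∀ j ∈ I, j < m) →
    (∀ j, j + 1 < m → (p j)⁻¹ * p (j + 1) ∈ T) → (∀ j < m, β j ∈ B) →
    (∀ j ∈ I, ∀ j' ∈ I, j ≠ j' → (p j * β j)⁻¹ * (p j' * β j') ∉ L) →
    ∃ j ∈ I, p j * β j ∉ C.W Mk

end Pool.Agent.Helper80.TM
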