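import Pool.Agent.Helper80.TM.Phi

/-!
TM-12. The mixed form of the separation property.

`MixSep K L n`: for all finite `T ⊆ L`, `B ⊆ K` there is `w : G → {0, ..., n}` such that the chains with steps in `T`
in `{w = 0}` and in the thickened sets `{w = i} B⁻¹`, `1 ≤ i ≤ n`, are bounded. `Sep K L n` implies
`MixSep K L n`, and conversely if every finite subset of `K` lies in a subgroup of finite asymptotic dimension.

`Lin K L n` (linear bound): the same with the thickened sets replaced by: a path of `r * c` different points with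
steps in `T` near which there are points `x_j b_j` of the same positive colour meets `r` different leaves `x_j b_j L`.
-/

set_option autoImplicit false

namespace Pool.Agent.Helper80.TM

open Pool.Agent.Helper65.TH
open Pool.Agent.Helper65.GN (Bdd Sep)
open Pool.Agent.Helper80.PP

/-- the mixed form of `Sep` -/
def MixSep {G : Type*} [Group G] (K L : Subgroup G) (n : ℕ) : Prop :=
  ∀ T B : Finset G, (∀ s ∈ T, s ∈ L) → (∀ b ∈ B, b ∈ K) → ∃ (w : G → ℕ) (E : Finset G),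
    (∀ x, w x ≤ n) ∧ Bdd (T : Set G) {x | w x = 0} E ∧
    ∀ i, 1 ≤ i → Bdd (T : Set G) {x | ∃ b ∈ B, w (x * b) = i} E

/-- the linear bound -/
def Lin {G : Type*} [Group G] (K L : Subgroup G) (n : ℕ) : Prop :=
  ∀ T B : Finset G, (∀ s ∈ T, s ∈ L) → (∀ b ∈ B, b ∈ K) → ∃ (a : G → ℕ) (E : Finset G) (c : ℕ),
    (∀ x, a x ≤ n) ∧ Bdd (T : Set G) {x | a x = 0} E ∧ 1 ≤ c ∧
    ∀ (r i : ℕ) (p β : ℕ → G), 1 ≤ i → (∀ j, j + 1 < r * c → (p j)⁻¹ * p (j + 1) ∈ T) →
      (∀ j < r * c, ∀ j' < r * c, p j = p j' → j = j') → (∀ j < r * c, β j ∈ B) →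
      (∀ j < r * c, a (p j * β j) = i) →
      ∃ I : Finset ℕ, I.card = r ∧ (∀ j ∈ I, j < r * c) ∧
        ∀ j ∈ I, ∀ j' ∈ I, j ≠ j' → (p j * β j)⁻¹ * (p j' * β j') ∉ L

theorem mix_of_sep {G : Type*} [Group G] (K L : Subgroup G) (hLK : L ≤ K) {n : ℕ}
    (h : Sep K L n) : MixSep K L n := by
  classical
  intro T B hT hB
  set S : Finset G := (B ×ˢ T ×ˢ B).image (fun q => q.1⁻¹ * q.2.1 * q.2.2) with hS
  have hSK : ∀ s ∈ S, s ∈ K := by
    intro s hs
    obtain ⟨⟨c, τ, d⟩, hq, rfl⟩ := Finset.mem_image.1 hs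
    simp only [Finset.mem_product] at hq
    exact K.mul_mem (K.mul_mem (K.inv_mem (hB c hq.1)) (hLK (hT τ hq.2.1))) (hB d hq.2.2)
  obtain ⟨w, E, hwn, hw0, hwi⟩ := h T S hT hSK
  refine ⟨w, E ∪ (B ×ˢ E ×ˢ B).image (fun q => q.1 * q.2.1 * q.2.2⁻¹), hwn,
    fun x hx y hxy => Finset.mem_union_left _ (hw0 x hx y hxy), ?_⟩
  intro i hi x hx y hxy
  obtain ⟨b₀, hb₀, hxb₀⟩ := hx
  have key : ∃ b ∈ B, Chain (S : Set G) (fun z => z ∈ {z | w z = i}) (x * b₀) (y * b) := by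
    refine hxy.rec' (R := fun z => ∃ b ∈ B,
      Chain (S : Set G) (fun z => z ∈ {z | w z = i}) (x * b₀) (z * b))
      ⟨b₀, hb₀, Chain.refl _ _ _⟩ ?_
    rintro a c _ ⟨b, hb, hch⟩ hs ⟨b', hb', hcb'⟩
    refine ⟨b', hb', hch.step ?_ hcb'⟩
    rw [hS, Finset.mem_coe]
    exact Finset.mem_image.2 ⟨(b, a⁻¹ * c, b'), by
      simp only [Finset.mem_product]
      exact ⟨hb, hs, hb'⟩, by group⟩
  obtain ⟨b, hb, hch⟩ := key
  have h2 := hwi i hi _ hxb₀ _ hch
  exact Finset.mem_union_right _ (Finset.mem_image.2 ⟨(b₀, (x * b₀)⁻¹ * (y * b), b), by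
    simp only [Finset.mem_product]
    exact ⟨hb₀, h2, hb⟩, by group⟩)

end Pool.Agent.Helper80.TM
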