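import Mathlib

/-!
TM-06. The numbers: `N = 2 Δ ^ c + 2`, `β = N - 1 / 2`.
-/

set_option autoImplicit false

namespace Pool.Agent.Helper80.TM

open Filter Topology

theorem marks_num (c Δ : ℕ) : ∃ (N J : ℕ) (β : ℝ), 0 < β ∧ 1 ≤ J ∧ ∀ I₀ : ℕ, ∃ r : ℕ, 1 ≤ r ∧
    ((N - 1 : ℕ) : ℝ) ^ J / β ^ (J - 1) + ((I₀ * (r * c) * Δ ^ (r * c) : ℕ) : ℝ) / β ^ (r - 1) ≤
      N - β := by
  set D : ℕ := Δ ^ c with hD
  set β : ℝ := 2 * D + 3 / 2 with hβ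
  have hD0 : (0 : ℝ) ≤ D := Nat.cast_nonneg _
  have hβ0 : 0 < β := by rw [hβ]; linarith
  set q : ℝ := (2 * D + 1) / β with hq
  have hq0 : 0 ≤ q := by rw [hq]; positivity
  have hq1 : q < 1 := by
    rw [hq, div_lt_one hβ0, hβ]
    linarith
  -- the number J
  have h1 : Tendsto (fun J : ℕ => β * q ^ J) atTop (𝓝 (β * 0)) :=
    (tendsto_pow_atTop_nhds_zero_of_lt_one hq0 hq1).const_mul β
  rw [mul_zero] at h1
  obtain ⟨J, hJ, hJ1⟩ := ((h1.eventually (ge_mem_nhds (show (0 : ℝ) < 1 / 4 by norm_num))).and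
    (eventually_ge_atTop 1)).exists
  refine ⟨2 * D + 2, J, β, hβ0, hJ1, fun I₀ => ?_⟩
  have h2 : Tendsto (fun r : ℕ => (I₀ * c * β) * ((r : ℝ) * (1 / 2 : ℝ) ^ r)) atTop
      (𝓝 ((I₀ * c * β) * 0)) :=
    (tendsto_self_mul_const_pow_of_lt_one (by norm_num) (by norm_num)).const_mul _
  rw [mul_zero] at h2
  obtain ⟨r, hr, hr1⟩ := ((h2.eventually (ge_mem_nhds (show (0 : ℝ) < 1 / 4 by norm_num))).and
    (eventually_ge_atTop 1)).exists
  refine ⟨r, hr1, ?_⟩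
  have e1 : (((2 * D + 2 : ℕ) : ℝ)) - β = 1 / 4 + 1 / 4 := by
    rw [hβ]
    push_cast
    ring
  rw [e1]
  refine add_le_add ?_ ?_
  · have e2 : (((2 * D + 2 - 1 : ℕ) : ℝ)) = q * β := by
      rw [hq, div_mul_cancel₀ _ hβ0.ne']
      have : 2 * D + 2 - 1 = 2 * D + 1 := by omega
      rw [this]
      push_cast
      ring
    rw [e2]
    have e3 : (q * β) ^ J / β ^ (J - 1) = β * q ^ J := by
      obtain ⟨j, rfl⟩ : ∃ j, J = j + 1 := ⟨J - 1, by omega⟩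
      rw [Nat.add_sub_cancel, mul_pow, pow_succ β j]
      field_simp
    rw [e3]
    exact hJ
  · have e2 : (((I₀ * (r * c) * Δ ^ (r * c) : ℕ)) : ℝ) = I₀ * (r * c) * (D : ℝ) ^ r := by
      rw [hD]
      push_cast
      rw [← pow_mul, mul_comm c r]
    rw [e2]
    have h3 : (D : ℝ) ^ r ≤ ((1 / 2) * β) ^ r := by
      apply pow_le_pow_left₀ hD0
      rw [hβ]
      linarith
    have h4 : (I₀ : ℝ) * (r * c) * (D : ℝ) ^ r / β ^ (r - 1) ≤
        (I₀ : ℝ) * (r * c) * ((1 / 2) * β) ^ r / β ^ (r - 1) := by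
      gcongr
    refine h4.trans (le_trans (le_of_eq ?_) hr)
    obtain ⟨j, rfl⟩ : ∃ j, r = j + 1 := ⟨r - 1, by omega⟩
    rw [Nat.add_sub_cancel, mul_pow, pow_succ β j]
    field_simp

end Pool.Agent.Helper80.TM
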