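import Pool.Agent.Helper80.TM.Cells

/-!
TM-02, TM-03, TM-10: the complement of the cut set is bounded; the exceptional set; thick form of `Sep`.
-/

set_option autoImplicit false

namespace Pool.Agent.Helper80.TM

open Pool.Agent.Helper65.TH
open Pool.Agent.Helper65.GN (Bdd Sep)
open Pool.Agent.Helper80.PP

/-- the complement of the cut set is bounded if all pieces have marked levels -/
theorem Cells.bdd_compl {G : Type*} [Group G] {L : Subgroup G} {T : Finset G} {J t : ℕ}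
    (C : Cells L T J t) (Mk : Set (Fin t × G × ℕ))
    (hB : ∀ r u, ∃ j, 1 ≤ j ∧ j ≤ J ∧ (r, u, j) ∈ Mk) :
    ∃ E : Finset G, Bdd (T : Set G) (C.W Mk)ᶜ E := by
  classical
  refine ⟨Finset.image₂ (fun a b => a⁻¹ * b) C.E C.E, ?_⟩
  intro x hx y hxy
  obtain ⟨r, hr⟩ := C.cov x
  obtain ⟨j, hj1, hjJ, hj⟩ := hB r (C.c r x)
  have key : C.d r y < j ∧ C.c r y = C.c r x := by
    refine hxy.rec' (R := fun z => C.d r z < j ∧ C.c r z = C.c r x) ⟨by omega, rfl⟩ ?_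
    rintro a b _ ⟨ha1, ha2⟩ hs hb
    have h1 := C.step r a (a⁻¹ * b) hs (by omega)
    rw [mul_inv_cancel_left] at h1
    refine ⟨?_, h1.2.trans ha2⟩
    rcases Nat.lt_or_ge (C.d r b) j with h2 | h2
    · exact h2
    · exfalso
      have h3 : C.d r b = j := by omega
      apply hb
      refine ⟨r, by omega, by omega, ?_⟩
      show (r, C.c r b, C.d r b) ∈ Mk
      rw [h3, h1.2, ha2]
      exact hj
  have h1 := C.near r x (by omega)
  have h2 := C.near r y (by omega)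
  rw [key.2] at h2
  exact Finset.mem_image₂.2 ⟨_, h1, _, h2, by group⟩

/-- the finitely many elements of `L` which relate points near a common foreign leaf -/
theorem exists_phi {G : Type*} [Group G] (K C L : Subgroup G)
    (hfin : ∀ g ∈ K, g ∉ C → {l | l ∈ L ∧ g⁻¹ * l * g ∈ L}.Finite) (B : Finset G)
    (hB : ∀ b ∈ B, b ∈ K) :
    ∃ Φ : Finset G, ∀ b ∈ B, b ∉ C → ∀ b' ∈ B, ∀ l ∈ L, b⁻¹ * l * b' ∈ L → l ∈ Φ := by
  classical
  have h1 : ∀ b b' : G, b ∈ B → b ∉ C → {l | l ∈ L ∧ b⁻¹ * l * b' ∈ L}.Finite := by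
    intro b b' hb hbC
    rcases Set.eq_empty_or_nonempty {l | l ∈ L ∧ b⁻¹ * l * b' ∈ L} with he | ⟨l₀, hl₀, hl₀'⟩
    · rw [he]; exact Set.finite_empty
    · refine ((hfin b (hB b hb) hbC).image (fun l => l * l₀)).subset ?_
      rintro l ⟨hl, hl'⟩
      refine ⟨l * l₀⁻¹, ⟨L.mul_mem hl (L.inv_mem hl₀), ?_⟩, by group⟩
      have e1 : b⁻¹ * (l * l₀⁻¹) * b = (b⁻¹ * l * b') * (b⁻¹ * l₀ * b')⁻¹ := by group
      rw [e1]
      exact L.mul_mem hl' (L.inv_mem hl₀')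
  refine ⟨B.biUnion fun b => B.biUnion fun b' =>
    if hb : b ∈ B ∧ b ∉ C then (h1 b b' hb.1 hb.2).toFinset else ∅, ?_⟩
  intro b hb hbC b' hb' l hl hl'
  refine Finset.mem_biUnion.2 ⟨b, hb, Finset.mem_biUnion.2 ⟨b', hb', ?_⟩⟩
  rw [dif_pos ⟨hb, hbC⟩, Set.Finite.mem_toFinset]
  exact ⟨hl, hl'⟩

theorem thick_of_sep {G : Type*} [Group G] (K L : Subgroup G) (hLK : L ≤ K) {n : ℕ}
    (h : Sep K L n) : ThickSep K L n := by
  classical
  intro T B hT hB
  set B2 : Finset G := Finset.image₂ (fun a b => a * b⁻¹) B B with hB2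
  have hB2K : ∀ b ∈ B2, b ∈ K := by
    intro b hb
    obtain ⟨c, hc, d, hd, rfl⟩ := Finset.mem_image₂.1 hb
    exact K.mul_mem (hB c hc) (K.inv_mem (hB d hd))
  set S : Finset G := (B2 ×ˢ T ×ˢ B2).image (fun q => q.1⁻¹ * q.2.1 * q.2.2) with hS
  have hSK : ∀ s ∈ S, s ∈ K := by
    intro s hs
    obtain ⟨⟨c, τ, d⟩, hq, rfl⟩ := Finset.mem_image.1 hs
    simp only [Finset.mem_product] at hq
    exact K.mul_mem (K.mul_mem (K.inv_mem (hB2K c hq.1)) (hLK (hT τ hq.2.1))) (hB2K d hq.2.2)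
  obtain ⟨w, E, hwn, hw0, hwi⟩ := h T S hT hSK
  -- the new map
  have hdec : ∀ x : G, (∃ i, 1 ≤ i ∧ ∃ b ∈ B, w (x * b⁻¹) = i) ∨
      ¬ ∃ i, 1 ≤ i ∧ ∃ b ∈ B, w (x * b⁻¹) = i := fun x => em _
  set w' : G → ℕ := fun x => if hx : ∃ i, 1 ≤ i ∧ ∃ b ∈ B, w (x * b⁻¹) = i then Nat.find hx else 0
    with hw'
  refine ⟨w', E ∪ (B2 ×ˢ E ×ˢ B2).image (fun q => q.1 * q.2.1 * q.2.2⁻¹), ?_, ?_⟩
  · intro x
    rw [hw']
    dsimp only
    split_ifs with hx
    · obtain ⟨-, b, -, hb⟩ := Nat.find_spec hx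
      rw [← hb]
      exact hwn _
    · exact Nat.zero_le _
  · intro i
    rcases Nat.eq_zero_or_pos i with rfl | hi
    · have hsub : ∀ x, (∃ b ∈ B, w' (x * b) = 0) → w x = 0 := by
        rintro x ⟨b, hb, hxb⟩
        rw [hw'] at hxb
        dsimp only at hxb
        by_contra hne
        have hx : ∃ i, 1 ≤ i ∧ ∃ b' ∈ B, w (x * b * b'⁻¹) = i :=
          ⟨w x, Nat.one_le_iff_ne_zero.2 hne, b, hb, by rw [mul_inv_cancel_right]⟩
        rw [dif_pos hx] at hxb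
        have := (Nat.find_spec hx).1
        omega
      intro x hx y hxy
      exact Finset.mem_union_left _ (hw0 x (hsub x hx) y (hxy.mono le_rfl hsub))
    · have hsub : ∀ x, (∃ b ∈ B, w' (x * b) = i) → ∃ b ∈ B2, w (x * b) = i := by
        rintro x ⟨b, hb, hxb⟩
        rw [hw'] at hxb
        dsimp only at hxb
        split_ifs at hxb with hx
        · obtain ⟨-, b', hb', h2⟩ := Nat.find_spec hx
          rw [hxb] at h2
          exact ⟨b * b'⁻¹, Finset.mem_image₂.2 ⟨b, hb, b', hb', rfl⟩, by rw [← mul_assoc]; exact h2⟩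
        · omega
      intro x hx y hxy
      obtain ⟨b₀, hb₀, hxb₀⟩ := hsub x hx
      have key : ∃ b ∈ B2, Chain (S : Set G) (fun z => z ∈ {z | w z = i}) (x * b₀) (y * b) := by
        refine hxy.rec' (R := fun z => ∃ b ∈ B2,
          Chain (S : Set G) (fun z => z ∈ {z | w z = i}) (x * b₀) (z * b))
          ⟨b₀, hb₀, Chain.refl _ _ _⟩ ?_
        rintro a c _ ⟨b, hb, hch⟩ hs hc
        obtain ⟨b', hb', hcb'⟩ := hsub c hc
        refine ⟨b', hb', hch.step ?_ hcb'⟩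
        rw [hS, Finset.mem_coe]
        exact Finset.mem_image.2 ⟨(b, a⁻¹ * c, b'), by
          simp only [Finset.mem_product]
          exact ⟨hb, hs, hb'⟩, by group⟩
      obtain ⟨b, hb, hch⟩ := key
      have h2 := hwi i hi _ hxb₀ _ hch
      refine Finset.mem_union_right _ (Finset.mem_image.2 ⟨(b₀, (x * b₀)⁻¹ * (y * b), b), by
        simp only [Finset.mem_product]
        exact ⟨hb₀, h2, hb⟩, by group⟩)

end Pool.Agent.Helper80.TM
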