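import Pool.Agent.Helper80.HY.Reach3
import Pool.Agent.Helper80.TM.CutZ

/-!
# TM-15: ascending normal series with factors which are locally cut (relation `CutZ`)
-/

set_option autoImplicit false

universe u

namespace Pool.Agent.Helper80.TM

open Pool.Agent.Helper65.TH Pool.Agent.Helper65.GN Pool.Agent.Helper65.FP Pool.Agent.Helper80.HY

/-- every finite subset lies in a subgroup which is cut in `K` -/
def Nice4 {G : Type*} [Group G] (K : Subgroup G) : Prop :=
  ∀ T : Finset G, (∀ s ∈ T, s ∈ K) → ∃ (n : ℕ) (L : Subgroup G), (∀ s ∈ T, s ∈ L) ∧ L ≤ K ∧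
    CutZ n K L

/-- `Reach4 N`: the normal subgroup `N` is reached from the trivial subgroup by an ascending series of
normal subgroups of `G` (possibly transfinite) with factors satisfying `Nice4`. -/
inductive Reach4 {G : Type*} [Group G] : Subgroup G → Prop
  | bot : Reach4 ⊥
  | step (N K : Subgroup G) [N.Normal] [K.Normal] (hN : Reach4 N) (hle : N ≤ K)
      (h : Nice4 (K.map (QuotientGroup.mk' N))) : Reach4 K
  | union (S : Set (Subgroup G)) (hne : S.Nonempty) (hdir : DirectedOn (· ≤ ·) S)
      (h : ∀ K ∈ S, Reach4 K) : Reach4 (sSup S)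

variable {G : Type u} [Group G]

theorem Nice4.sep {K : Subgroup G} (hK : Nice4 K) (hn : K.Normal) (T : Finset G)
    (hT : ∀ s ∈ T, s ∈ K) : ∃ n : ℕ, Sep ⊤ (Subgroup.closure (T : Set G)) n := by
  obtain ⟨n, L, hTL, hLK, hcut⟩ := hK T hT
  have h1 := (CutZ.comm n K ⊤ L hcut hLK le_top (commensurated_of_normal
    (fun g _ k hk => hn.conj_mem k hk g))).sep
  refine ⟨n, h1.mono le_rfl ?_⟩
  rw [Subgroup.closure_le]
  exact fun s hs => hTL s hs

theorem Reach4.good {N : Subgroup G} (h : Reach4 N) (T : Finset G) (hT : ∀ s ∈ T, s ∈ N) :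
    Good T := by
  classical
  induction h generalizing T with
  | bot => exact Reach.bot.good T hT
  | step N K hN hle h ih =>
    have hnor : (K.map (QuotientGroup.mk' N)).Normal :=
      Subgroup.Normal.map inferInstance _ (QuotientGroup.mk'_surjective N)
    have hT' : ∀ s ∈ T.image (QuotientGroup.mk' N), s ∈ K.map (QuotientGroup.mk' N) := by
      intro s hs
      rw [Finset.mem_image] at hs
      obtain ⟨x, hx, rfl⟩ := hs
      exact Subgroup.mem_map_of_mem _ (hT x hx)
    obtain ⟨n, hsep⟩ := h.sep hnor (T.image (QuotientGroup.mk' N)) hT'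
    refine good_ext (QuotientGroup.mk' N) T (good_of_sep hsep _ fun s hs =>
      Subgroup.subset_closure hs) ?_
    intro T' hT''
    apply ih
    intro s hs
    have h1 := hT'' s hs
    rwa [QuotientGroup.mk'_apply, QuotientGroup.eq_one_iff] at h1
  | union S hne hdir h ih =>
    obtain ⟨K, hK, hTK⟩ := exists_mem_of_directed S hne hdir T hT
    exact ih K hK T hTK

theorem nice4_of_nice3 {K : Subgroup G} (h : Nice3 K) : Nice4 K := by
  intro T hT
  obtain ⟨n, L, h1, h2, h3⟩ := h T hT
  exact ⟨n, L, h1, h2, cutZ_of_cutH h3⟩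

theorem reach4_of_reach3 {N : Subgroup G} (h : Reach3 N) : Reach4 N := by
  induction h with
  | bot => exact Reach4.bot
  | step N K hN hle h ih => exact Reach4.step N K ih hle (nice4_of_nice3 h)
  | union S hne hdir h ih => exact Reach4.union S hne hdir ih

end Pool.Agent.Helper80.TM
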