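import Pool.Agent.Helper80.TM.CutZ
import Pool.Agent.Helper65.TH.Families
import Pool.Agent.Helper65.FZ.StdT

/-!
# TM-16: strong asymptotic property C and towers

`StrongAPC X`: the number of families in the definition of asymptotic property C depends only on the first member
`R 0` of the sequence. `SepG K`: every finitely generated subgroup of `K` is separated in `K`. For a subgroup `K` with
the induced metric `StrongAPC K` implies `SepG K`; `SepG ⊤` implies `StrongAPC G`; `SepG` passes to the union of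
a tower with commensurated, rooted or almost malnormal steps.
-/

set_option autoImplicit false

universe u

namespace Pool.Agent.Helper80.TM

open Pool.Agent.Helper65.TH Pool.Agent.Helper65.GN Pool.Agent.Helper65.FP Pool.Agent.Helper80.HY
open Pool.Agent.Helper80.PP
open Pool.Agent.Helper75.Apc (HasFamilies)

/-- every finitely generated subgroup of `K` is separated in `K` -/
def SepG {G : Type*} [Group G] (K : Subgroup G) : Prop :=
  ∀ T : Finset G, (∀ s ∈ T, s ∈ K) → ∃ n, Sep K (Subgroup.closure (T : Set G)) n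

/-- separation for one set `T` of steps -/
def SepT {G : Type*} [Group G] (K : Subgroup G) (T : Finset G) (n : ℕ) : Prop :=
  ∀ S : Finset G, (∀ s ∈ S, s ∈ K) → ∃ (w : G → ℕ) (E : Finset G),
    (∀ x, w x ≤ n) ∧ Bdd (T : Set G) {x | w x = 0} E ∧ ∀ i, 1 ≤ i → Bdd (S : Set G) {x | w x = i} E

/-- from the metric form to chains -/
theorem sepT_of_strong {G : Type*} [Group G] [MetricSpace G]
    (hinv : ∀ a b c : G, dist (a * b) (a * c) = dist b c)
    (hprop : ∀ r : ℝ, (Metric.closedBall (1 : G) r).Finite) (K : Subgroup G)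
    (h : StrongAPC K) (T : Finset G) (hT : ∀ s ∈ T, s ∈ K) : ∃ n, SepT K T n := by
  classical
  obtain ⟨N, hN⟩ := h
  set ρ : ℝ := 1 + ∑ s ∈ T, dist 1 s with hρ
  have hd : ∀ a b : G, dist a b = dist 1 (a⁻¹ * b) := by
    intro a b
    have := hinv a 1 (a⁻¹ * b)
    rw [mul_one, mul_inv_cancel_left] at this
    exact this
  have hnn : ∀ S : Finset G, 0 ≤ ∑ s ∈ S, dist 1 s := fun S =>
    Finset.sum_nonneg fun _ _ => dist_nonneg
  have hle : ∀ S : Finset G, ∀ s ∈ S, dist 1 s ≤ ∑ s ∈ S, dist 1 s := fun S s hs =>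
    Finset.single_le_sum (f := fun s => dist (1 : G) s) (fun _ _ => dist_nonneg) hs
  refine ⟨N ρ, fun S hS => ?_⟩
  set R : ℕ → ℝ := fun i => if i = 0 then ρ else ρ + ∑ s ∈ S, dist 1 s with hR
  have hρ0 : 0 < ρ := by rw [hρ]; linarith [hnn T]
  have hpos : ∀ i, 0 < R i := by
    intro i
    rw [hR]
    dsimp only
    split_ifs
    · exact hρ0
    · linarith [hnn S]
  have hmono : Monotone R := by
    intro i j hij
    rw [hR]
    dsimp only
    split_ifs with h1 h2
    · exact le_rfl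
    · linarith [hnn S]
    · omega
    · exact le_rfl
  have hR0 : R 0 = ρ := by rw [hR]; simp
  have h1 := hN R hpos hmono
  rw [hR0] at h1
  obtain ⟨U, hD, hdisj, hcov⟩ := h1
  choose D hD using hD
  have hp : ∀ x : G, (QuotientGroup.mk x : G ⧸ K).out⁻¹ * x ∈ K := by
    intro x
    rw [← QuotientGroup.eq]
    exact QuotientGroup.out_eq' _
  let part : G → K := fun x => ⟨(QuotientGroup.mk x : G ⧸ K).out⁻¹ * x, hp x⟩
  have hpart : ∀ x y : G, x⁻¹ * y ∈ K → dist (part x) (part y) = dist 1 (x⁻¹ * y) := by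
    intro x y hxy
    have h2 : (QuotientGroup.mk x : G ⧸ K) = QuotientGroup.mk y := QuotientGroup.eq.2 hxy
    show dist ((QuotientGroup.mk x : G ⧸ K).out⁻¹ * x) ((QuotientGroup.mk y : G ⧸ K).out⁻¹ * y) = _
    rw [h2, hinv, hd]
  choose idx B hB hxB using fun x => hcov (part x)
  set E : Finset G := (hprop (∑ i, |D i|)).toFinset with hE
  have key : ∀ (i : ℕ) (P : Finset G), (∀ s ∈ P, s ∈ K) → (∀ s ∈ P, dist 1 s ≤ R i) →
      Bdd (P : Set G) {x | (idx x : ℕ) = i} E := by
    intro i P hPK hP x hx y hxy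
    have hxy' : x⁻¹ * y ∈ K ∧ part y ∈ B x := by
      refine hxy.rec' (R := fun z => x⁻¹ * z ∈ K ∧ part z ∈ B x)
        ⟨by rw [inv_mul_cancel]; exact K.one_mem, hxB x⟩ ?_
      rintro a b _ ⟨ha1, ha2⟩ hs hb
      refine ⟨?_, ?_⟩
      · have e1 : x⁻¹ * b = (x⁻¹ * a) * (a⁻¹ * b) := by group
        rw [e1]
        exact K.mul_mem ha1 (hPK _ hs)
      · have hib : idx b = idx x := Fin.ext ((show (idx b : ℕ) = i from hb).trans
          (show (idx x : ℕ) = i from hx).symm)
        by_cases hBB : B x = B b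
        · rw [hBB]
          exact hxB b
        · exfalso
          have hBb : B b ∈ U (idx x) := by rw [← hib]; exact hB b
          obtain ⟨δ, hδ, hδ'⟩ := hdisj (idx x) (B x) (hB x) (B b) hBb hBB
          have h3 := hδ' _ ha2 _ (hxB b)
          rw [hpart a b (hPK _ hs)] at h3
          have h4 := hP _ hs
          have h5 : R (idx x) = R i := by rw [show (idx x : ℕ) = i from hx]
          rw [h5] at hδ
          linarith
    rw [hE, Set.Finite.mem_toFinset, Metric.mem_closedBall, dist_comm, ← hpart x y hxy'.1]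
    have h3 := hD (idx x) (B x) (hB x) _ (hxB x) _ hxy'.2
    have h4 : |D (idx x)| ≤ ∑ i, |D i| :=
      Finset.single_le_sum (f := fun i => |D i|) (fun _ _ => abs_nonneg _) (Finset.mem_univ _)
    exact (h3.trans (le_abs_self _)).trans h4
  refine ⟨fun x => idx x, E, fun x => (idx x).2.le, key 0 T hT ?_, fun i hi => key i S hS ?_⟩
  · intro s hs
    rw [hR0, hρ]
    linarith [hle T s hs]
  · intro s hs
    rw [hR]
    dsimp only
    rw [if_neg (by omega)]
    linarith [hle S s hs]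

/-- thick sets for one set `T` of steps -/
theorem SepT.thick {G : Type*} [Group G] {K : Subgroup G} {T : Finset G} {n : ℕ}
    (h : SepT K T n) (hT : ∀ s ∈ T, s ∈ K) (B : Finset G) (hB : ∀ b ∈ B, b ∈ K) :
    ∃ (w : G → ℕ) (E : Finset G), (∀ x, w x ≤ n) ∧
      ∀ i, Bdd (T : Set G) {x | ∃ b ∈ B, w (x * b) = i} E := by
  classical
  set B2 : Finset G := Finset.image₂ (fun a b => a * b⁻¹) B B with hB2
  have hB2K : ∀ b ∈ B2, b ∈ K := by
    intro b hb
    obtain ⟨c, hc, d, hd, rfl⟩ := Finset.mem_image₂.1 hb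
    exact K.mul_mem (hB c hc) (K.inv_mem (hB d hd))
  set S : Finset G := (B2 ×ˢ T ×ˢ B2).image (fun q => q.1⁻¹ * q.2.1 * q.2.2) with hS
  have hSK : ∀ s ∈ S, s ∈ K := by
    intro s hs
    obtain ⟨⟨c, τ, d⟩, hq, rfl⟩ := Finset.mem_image.1 hs
    simp only [Finset.mem_product] at hq
    exact K.mul_mem (K.mul_mem (K.inv_mem (hB2K c hq.1)) (hT τ hq.2.1)) (hB2K d hq.2.2)
  obtain ⟨w, E, hwn, hw0, hwi⟩ := h S hSK
  set w' : G → ℕ := fun x => if hx : ∃ i, 1 ≤ i ∧ ∃ b ∈ B, w (x * b⁻¹) = i then Nat.find hx else 0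
    with hw'
  refine ⟨w', E ∪ (B2 ×ˢ E ×ˢ B2).image (fun q => q.1 * q.2.1 * q.2.2⁻¹), ?_, ?_⟩
  · intro x
    rw [hw']
    dsimp only
    split_ifs with hx
    · obtain ⟨-, b, -, hb⟩ := Nat.find_spec hx
      rw [← hb]
      exact hwn _
    · exact Nat.zero_le _
  · intro i
    rcases Nat.eq_zero_or_pos i with rfl | hi
    · have hsub : ∀ x, (∃ b ∈ B, w' (x * b) = 0) → w x = 0 := by
        rintro x ⟨b, hb, hxb⟩
        rw [hw'] at hxb
        dsimp only at hxb
        by_contra hne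
        have hx : ∃ i, 1 ≤ i ∧ ∃ b' ∈ B, w (x * b * b'⁻¹) = i :=
          ⟨w x, Nat.one_le_iff_ne_zero.2 hne, b, hb, by rw [mul_inv_cancel_right]⟩
        rw [dif_pos hx] at hxb
        have := (Nat.find_spec hx).1
        omega
      intro x hx y hxy
      exact Finset.mem_union_left _ (hw0 x (hsub x hx) y (hxy.mono le_rfl hsub))
    · have hsub : ∀ x, (∃ b ∈ B, w' (x * b) = i) → ∃ b ∈ B2, w (x * b) = i := by
        rintro x ⟨b, hb, hxb⟩
        rw [hw'] at hxb
        dsimp only at hxb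
        split_ifs at hxb with hx
        · obtain ⟨-, b', hb', h2⟩ := Nat.find_spec hx
          rw [hxb] at h2
          exact ⟨b * b'⁻¹, Finset.mem_image₂.2 ⟨b, hb, b', hb', rfl⟩, by rw [← mul_assoc]; exact h2⟩
        · omega
      intro x hx y hxy
      obtain ⟨b₀, hb₀, hxb₀⟩ := hsub x hx
      have key : ∃ b ∈ B2, Chain (S : Set G) (fun z => z ∈ {z | w z = i}) (x * b₀) (y * b) := by
        refine hxy.rec' (R := fun z => ∃ b ∈ B2,
          Chain (S : Set G) (fun z => z ∈ {z | w z = i}) (x * b₀) (z * b))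
          ⟨b₀, hb₀, Chain.refl _ _ _⟩ ?_
        rintro a c _ ⟨b, hb, hch⟩ hs hc
        obtain ⟨b', hb', hcb'⟩ := hsub c hc
        refine ⟨b', hb', hch.step ?_ hcb'⟩
        rw [hS, Finset.mem_coe]
        exact Finset.mem_image.2 ⟨(b, a⁻¹ * c, b'), by
          simp only [Finset.mem_product]
          exact ⟨hb, hs, hb'⟩, by group⟩
      obtain ⟨b, hb, hch⟩ := key
      have h2 := hwi i hi _ hxb₀ _ hch
      refine Finset.mem_union_right _ (Finset.mem_image.2 ⟨(b₀, (x * b₀)⁻¹ * (y * b), b), by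
        simp only [Finset.mem_product]
        exact ⟨hb₀, h2, hb⟩, by group⟩)

private theorem list_of_mem {G : Type*} [Group G] {L : Subgroup G} (T₀ : Finset G)
    (hsym : ∀ s ∈ T₀, s⁻¹ ∈ T₀)
    (hgen : L ≤ Subgroup.closure (T₀ : Set G)) (t : G) (ht : t ∈ L) :
    ∃ l : List G, (∀ s ∈ l, s ∈ T₀) ∧ l.prod = t := by
  have h0 : t ∈ (Subgroup.closure (T₀ : Set G)).toSubmonoid := hgen ht
  rw [Subgroup.closure_toSubmonoid] at h0
  obtain ⟨l, hl, hp⟩ := Submonoid.exists_list_of_mem_closure h0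
  refine ⟨l, fun s hs => ?_, hp⟩
  rcases hl s hs with h | h
  · exact h
  · have h1 := hsym _ (Finset.mem_coe.1 (Set.mem_inv.1 h))
    rwa [inv_inv] at h1

private theorem chain_list {G : Type*} [Group G] {A : Set G} (T₀ : Finset G) (l : List G)
    (hl : ∀ s ∈ l, s ∈ T₀) (x : G) (hA : ∀ j ≤ l.length, x * (l.take j).prod ∈ A) :
    Chain (T₀ : Set G) (fun b => b ∈ A) x (x * l.prod) := by
  have key : ∀ j ≤ l.length, Chain (T₀ : Set G) (fun b => b ∈ A) x (x * (l.take j).prod) := by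
    intro j
    induction j with
    | zero =>
      intro _
      rw [List.take_zero, List.prod_nil, mul_one]
      exact Chain.refl _ _ _
    | succ j ih =>
      intro hj
      refine (ih (by omega)).step ?_ (hA _ hj)
      have h1 : (l.take (j + 1)).prod = (l.take j).prod * l[j] := by
        rw [List.take_succ_eq_append_getElem (by omega), List.prod_append, List.prod_singleton]
      rw [h1]
      have h2 : (x * (l.take j).prod)⁻¹ * (x * ((l.take j).prod * l[j])) = l[j] := by group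
      rw [h2]
      exact hl _ (List.getElem_mem _)
  have h3 := key l.length le_rfl
  rwa [List.take_length] at h3

/-- a generating set of steps is enough -/
theorem thick_of_gens {G : Type*} [Group G] (K L : Subgroup G) (T₀ : Finset G)
    (hsym : ∀ s ∈ T₀, s⁻¹ ∈ T₀) (hgen : L ≤ Subgroup.closure (T₀ : Set G))
    (hT₀ : ∀ s ∈ T₀, s ∈ K) {n : ℕ}
    (h : ∀ S : Finset G, (∀ s ∈ S, s ∈ K) → ∃ (w : G → ℕ) (E : Finset G), (∀ x, w x ≤ n) ∧
      ∀ i, Bdd (T₀ : Set G) {x | ∃ b ∈ S, w (x * b) = i} E) : ThickSep K L n := by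
  classical
  intro T B hT hB
  have h1 : ∀ t : G, ∃ l : List G, (∀ s ∈ l, s ∈ T₀) ∧ (t ∈ T → l.prod = t) := by
    intro t
    by_cases ht : t ∈ T
    · obtain ⟨l, hl, hp⟩ := list_of_mem T₀ hsym hgen t (hT t ht)
      exact ⟨l, hl, fun _ => hp⟩
    · exact ⟨[], fun s hs => absurd hs List.not_mem_nil, fun h => absurd h ht⟩
  choose l hl hp using h1
  obtain ⟨P, hP⟩ : ∃ P : Finset G, P = insert 1 (T.biUnion fun t =>
    (Finset.range ((l t).length + 1)).image fun j => ((l t).take j).prod) := ⟨_, rfl⟩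
  have hPK : ∀ p ∈ P, p ∈ K := by
    intro p hp'
    rw [hP] at hp'
    rcases Finset.mem_insert.1 hp' with rfl | hp'
    · exact K.one_mem
    · obtain ⟨t, _, ht⟩ := Finset.mem_biUnion.1 hp'
      obtain ⟨j, _, rfl⟩ := Finset.mem_image.1 ht
      exact K.list_prod_mem fun x hx => hT₀ x (hl t x (List.mem_of_mem_take hx))
  have hP1 : (1 : G) ∈ P := by
    rw [hP]
    exact Finset.mem_insert_self _ _
  have hPt : ∀ t ∈ T, ∀ j ≤ (l t).length, ((l t).take j).prod ∈ P := by
    intro t ht j hj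
    rw [hP]
    exact Finset.mem_insert_of_mem (Finset.mem_biUnion.2 ⟨t, ht, Finset.mem_image.2
      ⟨j, Finset.mem_range.2 (by omega), rfl⟩⟩)
  obtain ⟨w, E, hw, hE⟩ := h (Finset.image₂ (fun b p => p⁻¹ * b) B P) (by
    intro s hs
    obtain ⟨b, hb, p, hp', rfl⟩ := Finset.mem_image₂.1 hs
    exact K.mul_mem (K.inv_mem (hPK p hp')) (hB b hb))
  refine ⟨w, E, hw, fun i => ?_⟩
  intro x hx y hxy
  obtain ⟨A, hA⟩ : ∃ A : Set G, A = {x | ∃ b ∈ Finset.image₂ (fun b p => p⁻¹ * b) B P,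
    w (x * b) = i} := ⟨_, rfl⟩
  have hmem : ∀ z : G, (∃ b ∈ B, w (z * b) = i) → ∀ p ∈ P, z * p ∈ A := by
    rintro z ⟨b, hb, hz⟩ p hpp
    rw [hA]
    refine ⟨p⁻¹ * b, Finset.mem_image₂.2 ⟨b, hb, p, hpp, rfl⟩, ?_⟩
    have e1 : z * p * (p⁻¹ * b) = z * b := by group
    rw [e1]
    exact hz
  have key : (∃ b ∈ B, w (y * b) = i) ∧ Chain (T₀ : Set G) (fun b => b ∈ A) x y := by
    refine hxy.rec' (R := fun z => (∃ b ∈ B, w (z * b) = i) ∧
      Chain (T₀ : Set G) (fun b => b ∈ A) x z) ⟨hx, Chain.refl _ _ _⟩ ?_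
    intro a b _ ha hs hb
    refine ⟨hb, ha.2.trans ?_⟩
    have h2 := chain_list (A := A) T₀ (l (a⁻¹ * b)) (hl _) a
      (fun j hj => hmem a ha.1 _ (hPt _ hs j hj))
    rwa [hp _ hs, mul_inv_cancel_left] at h2
  have hxA : x ∈ A := by
    have h3 := hmem x hx 1 hP1
    rwa [mul_one] at h3
  rw [hA] at hxA key
  exact hE i x hxA y key.2

theorem asdimLT_of_thick {G : Type*} [Group G] {K L : Subgroup G} {n : ℕ} (h : ThickSep K L n) :
    AsdimLT L (n + 1) := by
  classical
  intro F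
  obtain ⟨w, E, hw, hi⟩ := h (F.image Subtype.val) {1} (by
    intro s hs
    obtain ⟨u, -, rfl⟩ := Finset.mem_image.1 hs
    exact u.2) (by
    intro b hb
    rw [Finset.mem_singleton] at hb
    rw [hb]
    exact K.one_mem)
  have hb : ∀ i, Bdd ((F.image Subtype.val : Finset G) : Set G) {x | w x = i} E := by
    intro i
    have := hi i
    simpa only [Finset.mem_singleton, exists_eq_left, mul_one] using this
  refine ⟨E.subtype (fun e => e ∈ L), fun i => {x | w x = i}, fun x =>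
    ⟨⟨w x, Nat.lt_succ_of_le (hw x)⟩, rfl⟩, ?_⟩
  intro i x hx y hxy
  rw [Finset.mem_subtype]
  refine hb i (x : G) hx (y : G) (hxy.map (fun z : L => (z : G)) ?_)
  intro a b hs hb'
  refine ⟨?_, hb'⟩
  rw [Finset.mem_coe, Finset.mem_image]
  exact ⟨a⁻¹ * b, hs, rfl⟩

/-- the metric form implies the group form -/
theorem sepG_of_strong {G : Type*} [Group G] [MetricSpace G]
    (hinv : ∀ a b c : G, dist (a * b) (a * c) = dist b c)
    (hprop : ∀ r : ℝ, (Metric.closedBall (1 : G) r).Finite) (K : Subgroup G)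
    (h : StrongAPC K) : SepG K := by
  classical
  have hthick : ∀ T : Finset G, (∀ s ∈ T, s ∈ K) → ∃ n, ThickSep K
      (Subgroup.closure (T : Set G)) n := by
    intro T hT
    set T₀ : Finset G := T ∪ T.image (fun s => s⁻¹) with hT₀
    have hT₀K : ∀ s ∈ T₀, s ∈ K := by
      intro s hs
      rcases Finset.mem_union.1 hs with hs | hs
      · exact hT s hs
      · obtain ⟨u, hu, rfl⟩ := Finset.mem_image.1 hs
        exact K.inv_mem (hT u hu)
    obtain ⟨n, hn⟩ := sepT_of_strong hinv hprop K h T₀ hT₀K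
    refine ⟨n, thick_of_gens K _ T₀ ?_ ?_ hT₀K (fun B hB => hn.thick hT₀K B hB)⟩
    · intro s hs
      rcases Finset.mem_union.1 hs with hs | hs
      · exact Finset.mem_union_right _ (Finset.mem_image_of_mem _ hs)
      · obtain ⟨u, hu, rfl⟩ := Finset.mem_image.1 hs
        rw [inv_inv]
        exact Finset.mem_union_left _ hu
    · exact Subgroup.closure_mono (Finset.coe_subset.2 Finset.subset_union_left)
  intro T hT
  obtain ⟨n, hn⟩ := hthick T hT
  refine ⟨n + 1, sep_of_thick K _ ?_ ?_ hn⟩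
  · rw [Subgroup.closure_le]
    exact hT
  · intro S hS
    obtain ⟨m, hm⟩ := hthick S hS
    exact ⟨_, m + 1, fun s hs => Subgroup.subset_closure hs, asdimLT_of_thick hm⟩

/-- the group form implies the metric form for the whole group -/
theorem strong_of_sepG {G : Type*} [Group G] [MetricSpace G]
    (hinv : ∀ a b c : G, dist (a * b) (a * c) = dist b c)
    (hprop : ∀ r : ℝ, (Metric.closedBall (1 : G) r).Finite) (h : SepG (⊤ : Subgroup G)) :
    StrongAPC G := by
  have hcore : ∀ T : Finset G, (∀ s ∈ T, s⁻¹ ∈ T) → ∃ n : ℕ, ∀ S : Finset G, T ⊆ S →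
      (∀ s ∈ S, s⁻¹ ∈ S) → ∃ (A : ℕ → Set G) (E : Finset G), (∀ x, ∃ j < n, x ∈ A j) ∧
      (∀ x ∈ A 0, ∀ y, Chain (T : Set G) (fun b => b ∈ A 0) x y → x⁻¹ * y ∈ E) ∧
      ∀ j, 1 ≤ j → j < n → ∀ x ∈ A j, ∀ y,
        Chain (S : Set G) (fun b => b ∈ A j) x y → x⁻¹ * y ∈ E := by
    intro T _
    obtain ⟨n, hn⟩ := h T (fun s _ => Subgroup.mem_top s)
    refine ⟨n + 1, fun S _ _ => ?_⟩
    obtain ⟨w, E, hw, h0, hj⟩ := hn T S (fun s hs => Subgroup.subset_closure hs)
      (fun s _ => Subgroup.mem_top s)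
    exact ⟨fun j => {x | w x = j}, E, fun x => ⟨w x, Nat.lt_succ_of_le (hw x), rfl⟩, h0,
      fun j hj1 _ => hj j hj1⟩
  choose n hn using fun r : ℝ => hasFamilies_of_core hinv hprop hcore r
  exact ⟨n, fun R hR hmono => hn (R 0) R hR hmono le_rfl⟩

theorem sepG_of_cutZ {G : Type u} [Group G] (h : ∀ T : Finset G, ∃ (n : ℕ) (L : Subgroup G),
    (∀ s ∈ T, s ∈ L) ∧ CutZ n ⊤ L) : SepG (⊤ : Subgroup G) := by
  intro T _
  obtain ⟨n, L, hTL, hcut⟩ := h T
  refine ⟨n, hcut.sep.mono le_rfl ?_⟩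
  rw [Subgroup.closure_le]
  exact fun s hs => hTL s hs

theorem SepG.locFin {G : Type*} [Group G] {K : Subgroup G} (h : SepG K) : LocFin K := by
  intro S hS
  obtain ⟨n, hn⟩ := h S hS
  exact ⟨_, n + 1, fun s hs => Subgroup.subset_closure hs, asdimLT_of_sep (by
    rw [Subgroup.closure_le]
    exact hS) hn⟩

/-- towers -/
theorem sepG_of_tower {G : Type*} [Group G] (H : ℕ → Subgroup G) (hle : ∀ n, H n ≤ H (n + 1))
    (hun : ∀ g : G, ∃ n, g ∈ H n)
    (hs : ∀ n, Commensurated (H n) (H (n + 1)) ∨ Rooted (H n) (H (n + 1)) ∨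
      AlmostMalnormal (H n) (H (n + 1))) (h : ∀ n, SepG (H n)) : SepG (⊤ : Subgroup G) := by
  have hmono : Monotone H := monotone_nat_of_le_succ hle
  intro T _
  choose f hf using hun
  obtain ⟨m, hm⟩ : ∃ m, ∀ s ∈ T, s ∈ H m :=
    ⟨T.sup f, fun s hs => hmono (Finset.le_sup (f := f) hs) (hf s)⟩
  obtain ⟨k, hk⟩ := h m T hm
  set L : Subgroup G := Subgroup.closure (T : Set G) with hL
  have hLm : L ≤ H m := by
    rw [hL, Subgroup.closure_le]
    exact hm
  have key : ∀ n, m ≤ n → Sep (H n) L k := by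
    intro n hmn
    induction n, hmn using Nat.le_induction with
    | base => exact hk
    | succ n hn ih =>
      have hLn : L ≤ H n := hLm.trans (hmono hn)
      rcases hs n with hc | hr | ha
      · exact sep_comm (H n) (H (n + 1)) L hLn (hle n) hc.commT ih
      · exact sep_rooted (H n) (H (n + 1)) L hLn (hle n) hr ih
      · refine sep_of_mix (H (n + 1)) L (hLn.trans (hle n)) (h (n + 1)).locFin
          (mix_tame (H (n + 1)) (H n) L (asdimLT_of_sep hLn ih) (mix_of_sep (H n) L hLn ih) ?_)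
        intro g hg hgn
        refine (ha g hg hgn).subset ?_
        rintro l ⟨hl, hl'⟩
        exact ⟨hLn hl, hLn hl'⟩
  refine ⟨k, fun T' S hT' _ => ?_⟩
  obtain ⟨m', hm'⟩ : ∃ m', ∀ s ∈ S, s ∈ H m' :=
    ⟨S.sup f, fun s hs => hmono (Finset.le_sup (f := f) hs) (hf s)⟩
  exact key (max m m') (le_max_left _ _) T' S hT' (fun s hs => hmono (le_max_right _ _) (hm' s hs))

theorem sepG_of_asdim {M : Type*} [Group M] {t : ℕ} (h : AsdimLT M t) :
    SepG (⊤ : Subgroup M) := by
  intro T _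
  refine ⟨t, fun T' S _ _ => ?_⟩
  obtain ⟨E, A, hcov, hbd⟩ := h S
  choose i hi using hcov
  refine ⟨fun x => i x + 1, E, fun x => (i x).2, ?_, ?_⟩
  · intro x hx
    exact absurd (show (i x : ℕ) + 1 = 0 from hx) (Nat.succ_ne_zero _)
  · intro j hj x hx y hxy
    have hx' : (i x : ℕ) + 1 = j := hx
    refine hbd (i x) x (hi x) y (hxy.mono le_rfl ?_)
    intro b hb
    have hb' : (i b : ℕ) + 1 = j := hb
    have : i b = i x := Fin.ext (by omega)
    rw [← this]
    exact hi b

/-- groups of finite asymptotic dimension have strong asymptotic property C -/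
theorem strong_of_asdim {G : Type*} [Group G] [MetricSpace G]
    (hinv : ∀ a b c : G, dist (a * b) (a * c) = dist b c)
    (hprop : ∀ r : ℝ, (Metric.closedBall (1 : G) r).Finite) {K : Subgroup G} {t : ℕ}
    (h : AsdimLT K t) : StrongAPC K := by
  refine strong_of_sepG (fun a b c => hinv a b c) (fun r => ?_) (sepG_of_asdim h)
  exact Set.Finite.preimage (Set.injOn_of_injective Subtype.val_injective) (hprop r)

end Pool.Agent.Helper80.TM
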