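import Pool.Agent.Helper80.TM.Marks
import Pool.Agent.Helper80.TM.Phi
import Pool.Agent.Helper80.TM.Path
import Pool.Agent.Helper80.TM.Leaves

/-!
TM-09. The tame rule: if `L` has finite asymptotic dimension, `L ≤ C ≤ K`, `ThickSep C L n` and `L ∩ g L g⁻¹` is
finite for all `g ∈ K`, `g ∉ C`, then `ThickSep K L (n + 1)`.
-/

set_option autoImplicit false

namespace Pool.Agent.Helper80.TM

open Pool.Agent.Helper65.TH
open Pool.Agent.Helper65.GN (Bdd Sep)
open Pool.Agent.Helper80.PP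

theorem thick_tame {G : Type*} [Group G] (K C L : Subgroup G) {t n : ℕ} (hL : AsdimLT L t)
    (hn : ThickSep C L n)
    (hfin : ∀ g ∈ K, g ∉ C → {l | l ∈ L ∧ g⁻¹ * l * g ∈ L}.Finite) : ThickSep K L (n + 1) := by
  classical
  intro T B hT hB
  set B1 : Finset G := insert 1 (B ∪ B.image (fun b => b⁻¹)) with hB1
  have h1B : (1 : G) ∈ B1 := Finset.mem_insert_self _ _
  have hBB1 : ∀ b ∈ B, b ∈ B1 := fun b hb => Finset.mem_insert_of_mem (Finset.mem_union_left _ hb)
  have hBi : ∀ b ∈ B, b⁻¹ ∈ B1 := fun b hb =>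
    Finset.mem_insert_of_mem (Finset.mem_union_right _ (Finset.mem_image_of_mem _ hb))
  have hB1K : ∀ b ∈ B1, b ∈ K := by
    intro b hb
    rcases Finset.mem_insert.1 hb with rfl | hb
    · exact K.one_mem
    · rcases Finset.mem_union.1 hb with hb | hb
      · exact hB b hb
      · obtain ⟨u, hu, rfl⟩ := Finset.mem_image.1 hb
        exact K.inv_mem (hB u hu)
  set B2 : Finset G := Finset.image₂ (fun a b => a * b) B1 B1 with hB2
  have hB2K : ∀ b ∈ B2, b ∈ K := by
    intro b hb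
    obtain ⟨c, hc, d, hd, rfl⟩ := Finset.mem_image₂.1 hb
    exact K.mul_mem (hB1K c hc) (hB1K d hd)
  obtain ⟨a, Ea, han, haE⟩ := hn T (B2.filter (fun b => b ∈ C)) hT
    (fun b hb => (Finset.mem_filter.1 hb).2)
  obtain ⟨Φ₀, hΦ₀⟩ := exists_phi K C L hfin B2 hB2K
  set Φ : Finset G := insert 1 Φ₀ with hΦdef
  have hΦ : ∀ b ∈ B2, b ∉ C → ∀ b' ∈ B2, ∀ l ∈ L, b⁻¹ * l * b' ∈ L → l ∈ Φ :=
    fun b hb hbC b' hb' l hl hl' => Finset.mem_insert_of_mem (hΦ₀ b hb hbC b' hb' l hl hl')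
  have hΦ1 : Φ.Nonempty := ⟨1, Finset.mem_insert_self _ _⟩
  set c : ℕ := Φ.card * (Ea.card + 1) with hc
  have hc1 : 1 ≤ c := Nat.mul_pos (Finset.card_pos.2 hΦ1) (Nat.succ_pos _)
  obtain ⟨J, hJ, hmk⟩ := exists_marks T B2 t c
  obtain ⟨D⟩ := exists_cells L hL T hT J
  obtain ⟨r, Mk, hr, hMk, hdod⟩ := hmk L D
  obtain ⟨E0, hE0⟩ := D.bdd_compl Mk hMk
  set W : Set G := D.W Mk with hW
  have hm : 1 ≤ r * c := Nat.mul_pos hr hc1
  refine ⟨fun y => if h : ∃ b ∈ B1, y * b ∈ W then a (y * h.choose) + 1 else 0,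
    E0 ∪ Sp (insert 1 T) (r * c - 1), ?_, ?_⟩
  · intro y
    dsimp only
    split_ifs with h
    · exact Nat.succ_le_succ (han _)
    · exact Nat.zero_le _
  · intro i
    rcases Nat.eq_zero_or_pos i with rfl | hi
    · -- the points far from the cut set
      have hsub : ∀ x, (∃ b ∈ B, (if h : ∃ b' ∈ B1, x * b * b' ∈ W then
          a (x * b * h.choose) + 1 else 0) = 0) → x ∈ Wᶜ := by
        rintro x ⟨b, hb, hxb⟩ hxW
        have h1 : ∃ b' ∈ B1, x * b * b' ∈ W := ⟨b⁻¹, hBi b hb, by rwa [mul_inv_cancel_right]⟩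
        rw [dif_pos h1] at hxb
        exact Nat.succ_ne_zero _ hxb
      intro x hx y hxy
      exact Finset.mem_union_left _ (hE0 x (hsub x hx) y (hxy.mono le_rfl hsub))
    · -- the points near the cut set
      set A : Set G := {x | ∃ b ∈ B, (if h : ∃ b' ∈ B1, x * b * b' ∈ W then
          a (x * b * h.choose) + 1 else 0) = i} with hA
      have hsub : ∀ x ∈ A, ∃ b ∈ B2, x * b ∈ W ∧ a (x * b) = i - 1 := by
        rintro x ⟨b, hb, hxb⟩
        by_cases h1 : ∃ b' ∈ B1, x * b * b' ∈ W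
        · rw [dif_pos h1] at hxb
          refine ⟨b * h1.choose, Finset.mem_image₂.2 ⟨b, hBB1 b hb, _, h1.choose_spec.1, rfl⟩,
            ?_, ?_⟩
          · rw [← mul_assoc]; exact h1.choose_spec.2
          · rw [← mul_assoc]; omega
        · rw [dif_neg h1] at hxb
          omega
      intro x hx y hxy
      by_contra hcon
      have hxy' : x⁻¹ * y ∉ Sp (insert 1 T) (r * c - 1) := fun h =>
        hcon (Finset.mem_union_right _ h)
      obtain ⟨p, hp0, hpA, hpT, hpinj⟩ := exists_path T (insert 1 T) (Finset.subset_insert _ _)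
        (Finset.mem_insert_self _ _) A (r * c - 1) x y hx hxy hxy'
      have hch : ∀ j, ∃ b, j < r * c → b ∈ B2 ∧ p j * b ∈ W ∧ a (p j * b) = i - 1 := by
        intro j
        by_cases hj : j < r * c
        · obtain ⟨b, hb1, hb2, hb3⟩ := hsub (p j) (hpA j (by omega))
          exact ⟨b, fun _ => ⟨hb1, hb2, hb3⟩⟩
        · exact ⟨1, fun h => absurd h hj⟩
      choose β hβ using hch
      obtain ⟨I, hI1, hI2, hI3⟩ := exists_leaves C L T B2 a (i - 1) Ea Φ hT (by
        have := haE (i - 1)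
        refine fun z hz u hzu => this z ?_ u (hzu.mono le_rfl ?_)
        · obtain ⟨b, hb, hbC, hbi⟩ := hz
          exact ⟨b, Finset.mem_filter.2 ⟨hb, hbC⟩, hbi⟩
        · rintro z' ⟨b, hb, hbC, hbi⟩
          exact ⟨b, Finset.mem_filter.2 ⟨hb, hbC⟩, hbi⟩) hΦ hΦ1 r p β
        (fun j hj => hpT j (by rw [← hc] at hj; omega))
        (fun i' hi' j' hj' => hpinj i' (by rw [← hc] at hi'; omega) j' (by rw [← hc] at hj'; omega))
        (fun j hj => (hβ j (by rw [hc]; exact hj)).1) (fun j hj => (hβ j (by rw [hc]; exact hj)).2.2)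
      rw [← hc] at hI2
      obtain ⟨j, hj, hjW⟩ := hdod p β I hI1 hI2 (fun j hj => hpT j (by omega))
        (fun j hj => (hβ j hj).1) hI3
      exact hjW (hβ j (hI2 j hj)).2.1

end Pool.Agent.Helper80.TM
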